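import Pool.Agent.Y806.DF.C

/-!
# The Voronoi cell of a sublattice

Representatives of cosets of a sublattice that are shortest for a quadratic form: after passing to a
subset of density `256 ^ (-k)` their sums of two elements determine each other modulo the lattice.
-/

set_option autoImplicit false

namespace Pool.Agent.Q285.FinMod

open Finset Pool.Agent.Y806.DF
open scoped Pointwise

/-- the quadratic form with the weights `w` -/
def Q {k : ℕ} (w y : Fin k → ℝ) : ℝ := ∑ i, w i * y i ^ 2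

/-- its bilinear form -/
def Bl {k : ℕ} (w y z : Fin k → ℝ) : ℝ := ∑ i, w i * (y i * z i)

theorem Q_sub {k : ℕ} (w y z : Fin k → ℝ) : Q w (y - z) = Q w y - 2 * Bl w y z + Q w z := by
  unfold Q Bl
  rw [Finset.mul_sum, ← Finset.sum_sub_distrib, ← Finset.sum_add_distrib]
  refine Finset.sum_congr rfl fun i _ => ?_
  rw [Pi.sub_apply]
  ring

theorem Q_nonneg {k : ℕ} {w : Fin k → ℝ} (hw : ∀ i, 0 < w i) (y : Fin k → ℝ) : 0 ≤ Q w y :=
  Finset.sum_nonneg fun i _ => mul_nonneg (hw i).le (sq_nonneg _)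

theorem Q_neg {k : ℕ} (w y : Fin k → ℝ) : Q w (-y) = Q w y := by
  unfold Q
  refine Finset.sum_congr rfl fun i _ => ?_
  rw [Pi.neg_apply]
  ring

theorem Bl_self {k : ℕ} (w y : Fin k → ℝ) : Bl w y y = Q w y := by
  unfold Q Bl
  refine Finset.sum_congr rfl fun i _ => ?_
  ring

theorem Bl_neg {k : ℕ} (w y z : Fin k → ℝ) : Bl w (-y) z = Bl w y (-z) := by
  unfold Bl
  refine Finset.sum_congr rfl fun i _ => ?_
  rw [Pi.neg_apply, Pi.neg_apply]
  ring

theorem Bl_comb {k : ℕ} (w y z u : Fin k → ℝ) (a b : ℝ) :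
    Bl w (a • y + b • z) u = a * Bl w y u + b * Bl w z u := by
  unfold Bl
  rw [Finset.mul_sum, Finset.mul_sum, ← Finset.sum_add_distrib]
  refine Finset.sum_congr rfl fun i _ => ?_
  simp only [Pi.add_apply, Pi.smul_apply, smul_eq_mul]
  ring

theorem Q_comb {k : ℕ} {w : Fin k → ℝ} (hw : ∀ i, 0 < w i) (y z : Fin k → ℝ) {a b : ℝ} (ha : 0 ≤ a)
    (hb : 0 ≤ b) (hab : a + b = 1) : Q w (a • y + b • z) ≤ a * Q w y + b * Q w z := by
  unfold Q
  rw [Finset.mul_sum, Finset.mul_sum, ← Finset.sum_add_distrib]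
  refine Finset.sum_le_sum fun i _ => ?_
  simp only [Pi.add_apply, Pi.smul_apply, smul_eq_mul]
  have h1 : (a * y i + b * z i) ^ 2 ≤ a * y i ^ 2 + b * z i ^ 2 := by
    have hb' : b = 1 - a := by linarith
    subst hb'
    have h2 : 0 ≤ a * (1 - a) * (y i - z i) ^ 2 := mul_nonneg (mul_nonneg ha hb) (sq_nonneg _)
    nlinarith
  calc w i * (a * y i + b * z i) ^ 2 ≤ w i * (a * y i ^ 2 + b * z i ^ 2) :=
        mul_le_mul_of_nonneg_left h1 (hw i).le
    _ = _ := by ring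

theorem Q_eq_zero {k : ℕ} {w : Fin k → ℝ} (hw : ∀ i, 0 < w i) {y : Fin k → ℝ} (h : Q w y ≤ 0) :
    y = 0 := by
  have h0 : Q w y = 0 := le_antisymm h (Q_nonneg hw y)
  funext i
  have h1 := (Finset.sum_eq_zero_iff_of_nonneg
    (fun i _ => mul_nonneg (hw i).le (sq_nonneg (y i)))).1 h0 i (Finset.mem_univ i)
  rcases mul_eq_zero.1 h1 with h2 | h2
  · exact absurd h2 (hw i).ne'
  · exact pow_eq_zero_iff (two_ne_zero) |>.1 h2

/-- the Voronoi cell of `Λ`, cut off at `R` -/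
def cell {k : ℕ} (w : Fin k → ℝ) (Λ : AddSubgroup (Fin k → ℤ)) (R : ℝ) : Set (Fin k → ℝ) :=
  {y | Q w y ≤ R ∧ ∀ l ∈ Λ, 2 * Bl w y (re l) ≤ Q w (re l)}

theorem cell_sym {k : ℕ} {w : Fin k → ℝ} (hw : ∀ i, 0 < w i) (Λ : AddSubgroup (Fin k → ℤ)) {R : ℝ}
    (hR : 0 ≤ R) : Sym (cell w Λ R) := by
  refine ⟨?_, ?_, ?_, ?_⟩
  · intro y hy z hz a b ha hb hab
    refine ⟨?_, ?_⟩
    · calc Q w (a • y + b • z) ≤ a * Q w y + b * Q w z := Q_comb hw y z ha hb hab
        _ ≤ a * R + b * R :=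
          add_le_add (mul_le_mul_of_nonneg_left hy.1 ha) (mul_le_mul_of_nonneg_left hz.1 hb)
        _ = R := by rw [← add_mul, hab, one_mul]
    · intro l hl
      rw [Bl_comb]
      have h1 := mul_le_mul_of_nonneg_left (hy.2 l hl) ha
      have h2 := mul_le_mul_of_nonneg_left (hz.2 l hl) hb
      have h3 : Q w (re l) = a * Q w (re l) + b * Q w (re l) := by rw [← add_mul, hab, one_mul]
      rw [h3]
      linarith
  · have hcl : IsClosed (cell w Λ R) := by
      have e : cell w Λ R = {y | Q w y ≤ R} ∩ ⋂ l ∈ Λ, {y | 2 * Bl w y (re l) ≤ Q w (re l)} := by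
        ext y
        simp only [cell, Set.mem_inter_iff, Set.mem_iInter]
        exact Iff.rfl
      rw [e]
      refine IsClosed.inter ?_ ?_
      · refine isClosed_le ?_ continuous_const
        unfold Q
        fun_prop
      · refine isClosed_iInter fun l => isClosed_iInter fun _ => isClosed_le ?_ continuous_const
        unfold Bl
        fun_prop
    refine IsCompact.of_isClosed_subset
      (isCompact_univ_pi fun i => isCompact_Icc (a := -(R / w i + 1)) (b := R / w i + 1)) hcl ?_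
    intro y hy i _
    have h1 : w i * y i ^ 2 ≤ R :=
      (Finset.single_le_sum (f := fun i => w i * y i ^ 2)
        (fun i _ => mul_nonneg (hw i).le (sq_nonneg (y i))) (Finset.mem_univ i)).trans hy.1
    have h2 : y i ^ 2 ≤ R / w i := by
      rw [le_div_iff₀ (hw i)]
      linarith
    have h3 : |y i| ≤ R / w i + 1 := by
      rw [← sq_abs] at h2
      have h4 : 0 ≤ |y i| := abs_nonneg _
      nlinarith [sq_nonneg (|y i| - 1)]
    exact abs_le.1 h3
  · intro y hy
    refine ⟨?_, ?_⟩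
    · rw [Q_neg]
      exact hy.1
    · intro l hl
      have h1 := hy.2 (-l) (Λ.neg_mem hl)
      rw [Bl_neg]
      rw [re_neg, Q_neg] at h1
      exact h1
  · refine ⟨0, ?_, ?_⟩
    · have : Q w 0 = 0 := by simp [Q]
      rw [this]
      exact hR
    · intro l _
      have : Bl w 0 (re l) = 0 := by simp [Bl]
      rw [this, mul_zero]
      exact Q_nonneg hw _

theorem cell_lattice {k : ℕ} {w : Fin k → ℝ} (hw : ∀ i, 0 < w i) {Λ : AddSubgroup (Fin k → ℤ)}
    {R : ℝ} {l : Fin k → ℤ} (hl : l ∈ Λ) (h : l ∈ lat (cell w Λ R)) : l = 0 := by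
  have h1 := h.2 l hl
  rw [Bl_self] at h1
  have h2 := Q_eq_zero hw (y := re l) (by linarith)
  funext i
  have h3 : ((l i : ℤ) : ℝ) = 0 := congrFun h2 i
  exact_mod_cast h3

/-- Representatives which are shortest in their cosets of `Λ`: a subset of density `256 ^ (-k)` on
which sums of two are determined modulo `Λ`. -/
theorem vor {ι : Type*} [DecidableEq ι] {k : ℕ} {w : Fin k → ℝ} (hw : ∀ i, 0 < w i)
    (Λ : AddSubgroup (Fin k → ℤ)) (A : Finset ι) (hA : A.Nonempty) (x : ι → (Fin k → ℤ))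
    {R : ℝ} (hQ : ∀ a ∈ A, Q w (re (x a)) ≤ R)
    (hred : ∀ a ∈ A, ∀ l ∈ Λ, Q w (re (x a)) ≤ Q w (re (x a - l))) :
    ∃ A' ⊆ A, A'.Nonempty ∧ A.card ≤ 256 ^ k * A'.card ∧
      ∀ a ∈ A', ∀ b ∈ A', ∀ c ∈ A', ∀ d ∈ A',
        x a + x b - (x c + x d) ∈ Λ → x a + x b = x c + x d := by
  classical
  have hR : 0 ≤ R := by
    obtain ⟨a, ha⟩ := hA
    exact (Q_nonneg hw _).trans (hQ a ha)
  set W := cell w Λ R with hW
  have hWs : Sym W := cell_sym hw Λ hR
  have hmem : ∀ a ∈ A, x a ∈ lat W := by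
    intro a ha
    refine ⟨hQ a ha, ?_⟩
    intro l hl
    have h1 := hred a ha l hl
    rw [re_sub, Q_sub] at h1
    linarith
  set B := (1 / 2 : ℝ) • W with hB
  have hBs : Sym B := hWs.smul _
  obtain ⟨F, hF1, hF2⟩ := cover_two hBs (t := 1 / 2) (by norm_num) (by norm_num)
  have h2B : (2 : ℝ) • B = W := by
    rw [hB, smul_smul]
    norm_num
  have hB4 : (1 / 2 : ℝ) • B = (1 / 4 : ℝ) • W := by
    rw [hB, smul_smul]
    norm_num
  have hFc : F.card ≤ 256 ^ k := by
    have h1 := num_pow hBs (t := 1 / 2 / 2) (by norm_num) 2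
    have e : (2 : ℝ) ^ 2 * (1 / 2 / 2) = 1 := by norm_num
    rw [e] at h1
    have h2 : (0 : ℝ) < num B (1 / 2 / 2) := by exact_mod_cast num_pos hBs _
    have h3 : (F.card : ℝ) * num B (1 / 2 / 2) ≤ (256 : ℝ) ^ k * num B (1 / 2 / 2) := by
      have h4 : (num B 1 : ℝ) ≤ (16 : ℝ) ^ k * num B (1 / 2 / 2) := by
        have h5 : ((num B 1 : ℕ) : ℝ) ≤ (((4 ^ 2) ^ k * num B (1 / 2 / 2) : ℕ) : ℝ) := by
          exact_mod_cast h1
        push_cast at h5
        norm_num at h5 ⊢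
        exact h5
      calc (F.card : ℝ) * num B (1 / 2 / 2) ≤ 16 ^ k * num B 1 := hF1
        _ ≤ 16 ^ k * (16 ^ k * num B (1 / 2 / 2)) := mul_le_mul_of_nonneg_left h4 (by positivity)
        _ = (256 : ℝ) ^ k * num B (1 / 2 / 2) := by
          rw [← mul_assoc, ← mul_pow]; norm_num
    exact_mod_cast le_of_mul_le_mul_right h3 h2
  rw [h2B] at hF2
  rw [hB4] at hF2
  obtain ⟨f, hf, hf2⟩ := pigeon F A A hA (fun f a => ∃ v ∈ lat ((1 / 4 : ℝ) • W), x a = f + v)
    subset_rfl (fun a ha => by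
      obtain ⟨f, hf, v, hv, e⟩ := hF2 _ (hmem a ha)
      exact ⟨f, hf, v, hv, e⟩)
  refine ⟨A.filter (fun a => ∃ v ∈ lat ((1 / 4 : ℝ) • W), x a = f + v), Finset.filter_subset _ _,
    ?_, hf2.trans (Nat.mul_le_mul_right _ hFc), ?_⟩
  · rw [← Finset.card_pos]
    by_contra hcon
    have h0 : (A.filter (fun a => ∃ v ∈ lat ((1 / 4 : ℝ) • W), x a = f + v)).card = 0 := by omega
    rw [h0, mul_zero] at hf2
    have := hA.card_pos
    omega
  · intro a ha b hb c hc d hd hΛ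
    obtain ⟨va, hva, ea⟩ := (Finset.mem_filter.1 ha).2
    obtain ⟨vb, hvb, eb⟩ := (Finset.mem_filter.1 hb).2
    obtain ⟨vc, hvc, ec⟩ := (Finset.mem_filter.1 hc).2
    obtain ⟨vd, hvd, ed⟩ := (Finset.mem_filter.1 hd).2
    have e1 : x a + x b - (x c + x d) = (va - vc) + (vb - vd) := by
      rw [ea, eb, ec, ed]; abel
    have h1 := hWs.sub (by norm_num) (by norm_num) hva hvc
    have h2 := hWs.sub (by norm_num) (by norm_num) hvb hvd
    have h3 := hWs.add (by norm_num) (by norm_num) h1 h2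
    rw [← e1] at h3
    norm_num at h3
    have h4 := cell_lattice hw hΛ h3
    exact sub_eq_zero.1 h4

end Pool.Agent.Q285.FinMod
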