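import Pool.Agent.W860.OB.Gap
import Pool.Agent.Q285.FinMod.A

/-!
# Lifting a dense part of a set of small doubling to `ℤ^k × H`
-/

set_option autoImplicit false

namespace Pool.Agent.Q285.FinMod

open Finset Pool.Agent.Y806.DF
open scoped Pointwise

universe u

/-- the homomorphism `c ↦ ∑ c_i v_i` -/
def comb {G : Type u} [AddCommGroup G] {k : ℕ} (v : Fin k → G) : (Fin k → ℤ) →+ G where
  toFun c := ∑ i, c i • v i
  map_zero' := by simp
  map_add' := by
    intro a b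
    rw [← Finset.sum_add_distrib]
    exact Finset.sum_congr rfl fun i _ => by rw [Pi.add_apply, add_smul]

/-- shortest representatives -/
theorem short {G : Type u} [AddCommGroup G] {k : ℕ} (v : Fin k → G) (L : Fin k → ℕ)
    (H : AddSubgroup G) (b : G) (c₀ : Fin k → ℤ) (hc₀ : ∀ i, |c₀ i| ≤ L i)
    (hb : b - comb v c₀ ∈ H) :
    ∃ c : Fin k → ℤ, (∀ i, |c i| ≤ ((k * (L i + 1) : ℕ) : ℤ)) ∧ b - comb v c ∈ H ∧
      Q (fun i => 1 / ((L i : ℝ) + 1) ^ 2) (re c) ≤ k ∧
      ∀ c' : Fin k → ℤ, b - comb v c' ∈ H →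
        Q (fun i => 1 / ((L i : ℝ) + 1) ^ 2) (re c) ≤
          Q (fun i => 1 / ((L i : ℝ) + 1) ^ 2) (re c') := by
  classical
  set w : Fin k → ℝ := fun i => 1 / ((L i : ℝ) + 1) ^ 2 with hw
  have hwpos : ∀ i, 0 < w i := fun i => by
    rw [hw]; positivity
  set S : Set (Fin k → ℤ) := {c | (∀ i, |c i| ≤ ((k * (L i + 1) : ℕ) : ℤ)) ∧ b - comb v c ∈ H ∧
    Q w (re c) ≤ k} with hS
  have hfin : S.Finite := by
    refine (Set.finite_Icc (fun i => -((k * (L i + 1) : ℕ) : ℤ)) (fun i => ((k * (L i + 1) : ℕ) : ℤ))).subset ?_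
    intro c hc
    exact ⟨fun i => (abs_le.1 (hc.1 i)).1, fun i => (abs_le.1 (hc.1 i)).2⟩
  have hbox : ∀ c : Fin k → ℤ, Q w (re c) ≤ k → ∀ i, |c i| ≤ ((k * (L i + 1) : ℕ) : ℤ) := by
    intro c hc i
    have hk1 : (1 : ℝ) ≤ k := by
      have : 0 < k := lt_of_le_of_lt (Nat.zero_le _) i.2
      exact_mod_cast this
    have h1 : w i * (re c i) ^ 2 ≤ k :=
      (Finset.single_le_sum (f := fun i => w i * (re c i) ^ 2)
        (fun i _ => mul_nonneg (hwpos i).le (sq_nonneg _)) (Finset.mem_univ i)).trans hc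
    have hL : (0 : ℝ) < (L i : ℝ) + 1 := by positivity
    have h2 : (re c i) ^ 2 ≤ (k * ((L i : ℝ) + 1)) ^ 2 := by
      have h3 : (re c i) ^ 2 ≤ k * ((L i : ℝ) + 1) ^ 2 := by
        have h4 : w i * (re c i) ^ 2 = (re c i) ^ 2 / ((L i : ℝ) + 1) ^ 2 := by
          rw [hw]; ring
        rw [h4, div_le_iff₀ (by positivity)] at h1
        exact h1
      calc (re c i) ^ 2 ≤ k * ((L i : ℝ) + 1) ^ 2 := h3
        _ ≤ (k * k) * ((L i : ℝ) + 1) ^ 2 := by
          refine mul_le_mul_of_nonneg_right ?_ (by positivity)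
          nlinarith
        _ = _ := by ring
    have h5 : |re c i| ≤ k * ((L i : ℝ) + 1) := abs_le_of_sq_le_sq h2 (by positivity)
    have h6 : ((|c i| : ℤ) : ℝ) ≤ (((k * (L i + 1) : ℕ) : ℤ) : ℝ) := by
      push_cast
      exact h5
    exact_mod_cast h6
  have hne : S.Nonempty := by
    have hq : Q w (re c₀) ≤ k := by
      unfold Q
      calc ∑ i, w i * (re c₀ i) ^ 2 ≤ ∑ _i : Fin k, (1 : ℝ) := by
            refine Finset.sum_le_sum fun i _ => ?_
            have h1 : |((c₀ i : ℤ) : ℝ)| ≤ (L i : ℝ) + 1 := by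
              have h2 : ((|c₀ i| : ℤ) : ℝ) ≤ ((L i : ℤ) : ℝ) := by exact_mod_cast hc₀ i
              push_cast at h2
              linarith
            have h3 : (re c₀ i) ^ 2 ≤ ((L i : ℝ) + 1) ^ 2 := by
              rw [← sq_abs]
              exact pow_le_pow_left₀ (abs_nonneg _) h1 2
            have h4 : w i * (re c₀ i) ^ 2 = (re c₀ i) ^ 2 / ((L i : ℝ) + 1) ^ 2 := by
              rw [hw]; ring
            rw [h4, div_le_one (by positivity)]
            exact h3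
        _ = k := by simp
    exact ⟨c₀, hbox c₀ hq, hb, hq⟩
  obtain ⟨c, hc, hmin⟩ := Set.exists_min_image S (fun c => Q w (re c)) hfin hne
  refine ⟨c, hc.1, hc.2.1, hc.2.2, ?_⟩
  intro c' hc'
  by_cases h : Q w (re c') ≤ k
  · exact hmin c' ⟨hbox c' h, hc', h⟩
  · push Not at h
    exact hc.2.2.trans h.le

/-- the data of a lift of `A` to `ℤ^k × H` -/
structure Lift {G : Type u} [AddCommGroup G] (A : Finset G) {k : ℕ} (v : Fin k → G)
    (N : Fin k → ℕ) (H : AddSubgroup G) (t : G) (x : G → Fin k → ℤ) : Prop where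
  box : ∀ a ∈ A, ∀ i, |x a i| ≤ N i
  mem : ∀ a ∈ A, a - t - comb v (x a) ∈ H
  frei : ∀ a ∈ A, ∀ b ∈ A, ∀ c ∈ A, ∀ d ∈ A,
    comb v (x a + x b - (x c + x d)) ∈ H → x a + x b = x c + x d

theorem kap {κ ε : ℝ} (hκ : 0.69 < κ) (hε0 : 0 < ε) (hε1 : ε ≤ 1) : 0.69 * κ ≤ κ ^ (1 + ε) := by
  have hκ0 : 0 < κ := by linarith
  have h1 : 0.69 ≤ κ ^ ε := by
    by_cases hk1 : 1 ≤ κ
    · have := Real.one_le_rpow hk1 hε0.le
      linarith
    · push Not at hk1
      calc (0.69 : ℝ) ≤ κ := hκ.le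
        _ = κ ^ (1 : ℝ) := (Real.rpow_one κ).symm
        _ ≤ κ ^ ε := Real.rpow_le_rpow_of_exponent_ge hκ0 hk1.le hε1
  rw [Real.rpow_add hκ0, Real.rpow_one]
  nlinarith

/-- **The lift.** -/
theorem lift {G : Type u} [AddCommGroup G] [DecidableEq G] {K ε : ℝ} {A : Finset G}
    (hA : A.Nonempty) (hK : ((A + A).card : ℝ) ≤ K * A.card) (hε0 : 0 < ε) (hε1 : ε ≤ 1) :
    ∃ (k : ℕ) (v : Fin k → G) (N : Fin k → ℕ) (H : AddSubgroup G) (t : G) (x : G → Fin k → ℤ)
      (A' : Finset G), (k : ℝ) ≤ 30000 / ε * Real.log (2 * K) ∧ Finite H ∧ A' ⊆ A ∧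
      A'.Nonempty ∧ (A.card : ℝ) ≤ (2 * K) ^ (200000 / ε) * A'.card ∧
      ((∏ i, (4 * N i + 1) : ℕ) : ℝ) * Nat.card H ≤
        Real.exp (8000000 / ε ^ 2 * Real.log (2 * K) ^ (1 + ε)) * A'.card ∧
      Lift A' v N H t x := by
  classical
  have hAr : (0 : ℝ) < A.card := by exact_mod_cast hA.card_pos
  have hK1 : 1 ≤ K := by
    have h1 : (A.card : ℝ) ≤ (A + A).card := by
      exact_mod_cast Finset.card_le_card_add_right hA
    nlinarith
  have hκ69 : (0.69 : ℝ) < Real.log (2 * K) := by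
    have h1 : Real.log 2 ≤ Real.log (2 * K) := Real.log_le_log (by norm_num) (by linarith)
    have := Real.log_two_gt_d9
    linarith
  obtain ⟨k, v, L, H, T, hk, hHf, hvol, hT, hcov⟩ := W860.OB.gap_cover hA hK hε0 hε1
  obtain ⟨t, ht, ht2⟩ := pigeon T A A hA (fun t a => ∃ c : Fin k → ℤ, (∀ i, |c i| ≤ L i) ∧
    ∃ h ∈ H, a = t + ∑ i, c i • v i + h) subset_rfl hcov
  set A₁ := A.filter (fun a => ∃ c : Fin k → ℤ, (∀ i, |c i| ≤ L i) ∧
    ∃ h ∈ H, a = t + ∑ i, c i • v i + h) with hA₁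
  have hA₁pos : 0 < A₁.card := by
    by_contra hcon
    have h0 : A₁.card = 0 := by omega
    rw [h0, mul_zero] at ht2
    have := hA.card_pos
    omega
  set w : Fin k → ℝ := fun i => 1 / ((L i : ℝ) + 1) ^ 2 with hw
  have hwpos : ∀ i, 0 < w i := fun i => by
    rw [hw]; positivity
  have hex : ∀ a ∈ A₁, ∃ c : Fin k → ℤ, (∀ i, |c i| ≤ ((k * (L i + 1) : ℕ) : ℤ)) ∧
      a - t - comb v c ∈ H ∧ Q w (re c) ≤ k ∧
      ∀ c' : Fin k → ℤ, a - t - comb v c' ∈ H → Q w (re c) ≤ Q w (re c') := by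
    intro a ha
    obtain ⟨c, hc, h, hh, e⟩ := (Finset.mem_filter.1 ha).2
    refine short v L H (a - t) c hc ?_
    have e2 : a - t - comb v c = h := by
      rw [e]
      show t + ∑ i, c i • v i + h - t - ∑ i, c i • v i = h
      abel
    rw [e2]
    exact hh
  let x : G → Fin k → ℤ := fun a => if h : a ∈ A₁ then (hex a h).choose else 0
  have hx : ∀ a ∈ A₁, (∀ i, |x a i| ≤ ((k * (L i + 1) : ℕ) : ℤ)) ∧
      a - t - comb v (x a) ∈ H ∧ Q w (re (x a)) ≤ k ∧
      ∀ c' : Fin k → ℤ, a - t - comb v c' ∈ H → Q w (re (x a)) ≤ Q w (re c') := by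
    intro a ha
    have e : x a = (hex a ha).choose := dif_pos ha
    rw [e]
    exact (hex a ha).choose_spec
  obtain ⟨A', hA'sub, hA'ne, hA'card, hfr⟩ := vor hwpos (H.comap (comb v)) A₁
    (Finset.card_pos.1 hA₁pos) x (R := k) (fun a ha => (hx a ha).2.2.1) (by
      intro a ha l hl
      refine (hx a ha).2.2.2 _ ?_
      rw [map_sub]
      have e : a - t - (comb v (x a) - comb v l) = (a - t - comb v (x a)) + comb v l := by abel
      rw [e]
      exact H.add_mem (hx a ha).2.1 hl)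
  have h256 : ((256 : ℝ)) ^ k ≤ (2 * K) ^ (170000 / ε) := by
    have hl : Real.log 256 ≤ 5.6 := by
      rw [show (256 : ℝ) = 2 ^ 8 by norm_num, Real.log_pow]
      have := Real.log_two_lt_d9
      push_cast
      linarith
    have h1 : Real.log ((256 : ℝ) ^ k) ≤ Real.log ((2 * K) ^ (170000 / ε)) := by
      rw [Real.log_pow, Real.log_rpow (by linarith)]
      calc (k : ℝ) * Real.log 256 ≤ k * 5.6 := mul_le_mul_of_nonneg_left hl (Nat.cast_nonneg _)
        _ ≤ (30000 / ε * Real.log (2 * K)) * 5.6 := mul_le_mul_of_nonneg_right hk (by norm_num)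
        _ = 168000 / ε * Real.log (2 * K) := by ring
        _ ≤ 170000 / ε * Real.log (2 * K) := by
          refine mul_le_mul_of_nonneg_right ?_ (by linarith)
          exact div_le_div_of_nonneg_right (by norm_num) hε0.le
    exact (Real.log_le_log_iff (by positivity) (Real.rpow_pos_of_pos (by linarith) _)).1 h1
  have hcard : (A.card : ℝ) ≤ (2 * K) ^ (200000 / ε) * A'.card := by
    have h1 : (A.card : ℝ) ≤ T.card * A₁.card := by exact_mod_cast ht2
    have h2 : (A₁.card : ℝ) ≤ 256 ^ k * A'.card := by exact_mod_cast hA'card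
    calc (A.card : ℝ) ≤ T.card * A₁.card := h1
      _ ≤ (2 * K) ^ (30000 / ε) * ((2 * K) ^ (170000 / ε) * A'.card) := by
        refine mul_le_mul hT (h2.trans (mul_le_mul_of_nonneg_right h256 (Nat.cast_nonneg _)))
          (Nat.cast_nonneg _) (Real.rpow_nonneg (by linarith) _)
      _ = (2 * K) ^ (200000 / ε) * A'.card := by
        rw [← mul_assoc, ← Real.rpow_add (by linarith)]
        congr 2
        ring
  refine ⟨k, v, fun i => k * (L i + 1), H, t, x, A', hk, hHf, hA'sub.trans (Finset.filter_subset _ _),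
    hA'ne, hcard, ?_, ⟨fun a ha => (hx a (hA'sub ha)).1, fun a ha => (hx a (hA'sub ha)).2.1, hfr⟩⟩
  have hprod : ∏ i : Fin k, (4 * (k * (L i + 1)) + 1) ≤ (36 * k ^ 6) ^ k * ∏ i, (2 * L i + 1) := by
    have h1 : (36 * k ^ 6) ^ k = ∏ _i : Fin k, (36 * k ^ 6) := by simp
    rw [h1, ← Finset.prod_mul_distrib]
    refine Finset.prod_le_prod' fun i _ => ?_
    have hk1 : 1 ≤ k := lt_of_le_of_lt (Nat.zero_le _) i.2
    have hk6 : k ≤ k ^ 6 := Nat.le_self_pow (by norm_num) k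
    calc 4 * (k * (L i + 1)) + 1 ≤ 4 * (k * (L i + 1)) + k := by omega
      _ ≤ 36 * k * (2 * L i + 1) := by nlinarith
      _ ≤ 36 * k ^ 6 * (2 * L i + 1) := Nat.mul_le_mul_right _ (Nat.mul_le_mul_left _ hk6)
  have h3 : (0 : ℝ) ≤ Nat.card H := Nat.cast_nonneg _
  have hbox := W860.OB.num_box hκ69 hε0 hε1 hk
  calc ((∏ i : Fin k, (4 * (k * (L i + 1)) + 1) : ℕ) : ℝ) * Nat.card H
      ≤ ((36 * (k : ℝ) ^ 6) ^ k * ((∏ i, (2 * L i + 1) : ℕ) : ℝ)) * Nat.card H := by
        refine mul_le_mul_of_nonneg_right ?_ h3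
        exact_mod_cast hprod
    _ = (36 * (k : ℝ) ^ 6) ^ k * (((∏ i, (2 * L i + 1) : ℕ) : ℝ) * Nat.card H) := by ring
    _ ≤ Real.exp (3500000 / ε ^ 2 * Real.log (2 * K) ^ (1 + ε)) *
        (Real.exp (4000000 / ε ^ 2 * Real.log (2 * K) ^ (1 + ε)) * A.card) :=
        mul_le_mul hbox hvol (mul_nonneg (Nat.cast_nonneg _) h3) (Real.exp_pos _).le
    _ ≤ Real.exp (3500000 / ε ^ 2 * Real.log (2 * K) ^ (1 + ε)) *
        (Real.exp (4000000 / ε ^ 2 * Real.log (2 * K) ^ (1 + ε)) *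
          (Real.exp (200000 / ε * Real.log (2 * K)) * A'.card)) := by
        refine mul_le_mul_of_nonneg_left (mul_le_mul_of_nonneg_left ?_ (Real.exp_pos _).le)
          (Real.exp_pos _).le
        have e : (2 * K) ^ (200000 / ε) = Real.exp (200000 / ε * Real.log (2 * K)) := by
          rw [Real.rpow_def_of_pos (by linarith), mul_comm]
        rw [← e]
        exact hcard
    _ = Real.exp (3500000 / ε ^ 2 * Real.log (2 * K) ^ (1 + ε) +
          4000000 / ε ^ 2 * Real.log (2 * K) ^ (1 + ε) + 200000 / ε * Real.log (2 * K)) *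
          A'.card := by
        rw [Real.exp_add, Real.exp_add]; ring
    _ ≤ _ := by
        refine mul_le_mul_of_nonneg_right (Real.exp_le_exp.2 ?_) (Nat.cast_nonneg _)
        have h4 := kap hκ69 hε0 hε1
        have h5 : 200000 / ε ≤ 200000 / ε ^ 2 := by
          apply div_le_div_of_nonneg_left (by norm_num) (by positivity)
          nlinarith
        have h6 : 200000 / ε * Real.log (2 * K) ≤ 200000 / ε ^ 2 * (Real.log (2 * K) ^ (1 + ε) / 0.69) := by
          refine mul_le_mul h5 ?_ (by linarith) (by positivity)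
          rw [le_div_iff₀ (by norm_num)]
          linarith
        have h7 : 0 ≤ 1 / ε ^ 2 * Real.log (2 * K) ^ (1 + ε) := by
          have : 0 < Real.log (2 * K) := by linarith
          positivity
        calc 3500000 / ε ^ 2 * Real.log (2 * K) ^ (1 + ε) +
              4000000 / ε ^ 2 * Real.log (2 * K) ^ (1 + ε) + 200000 / ε * Real.log (2 * K)
            ≤ 3500000 / ε ^ 2 * Real.log (2 * K) ^ (1 + ε) +
              4000000 / ε ^ 2 * Real.log (2 * K) ^ (1 + ε) +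
              200000 / ε ^ 2 * (Real.log (2 * K) ^ (1 + ε) / 0.69) := by linarith
          _ = (7500000 + 200000 / 0.69) * (1 / ε ^ 2 * Real.log (2 * K) ^ (1 + ε)) := by ring
          _ ≤ 8000000 * (1 / ε ^ 2 * Real.log (2 * K) ^ (1 + ε)) :=
            mul_le_mul_of_nonneg_right (by norm_num) h7
          _ = _ := by ring

end Pool.Agent.Q285.FinMod
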