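import Pool.Agent.Q285.FinMod.B

/-!
# The finite model, and the pull-back of coset progressions from the model
-/

set_option autoImplicit false

namespace Pool.Agent.Q285.FinMod

open Finset Pool.Agent.Y806.DF
open scoped Pointwise

universe u

variable {G : Type u} [AddCommGroup G]

/-- the model group -/
abbrev Grp {k : ℕ} (N : Fin k → ℕ) (H : AddSubgroup G) : Type u :=
  (∀ i : Fin k, ZMod (4 * N i + 1)) × H

/-- reduction of the free part -/
def red {k : ℕ} (N : Fin k → ℕ) (H : AddSubgroup G) : ((Fin k → ℤ) × H) →+ Grp N H where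
  toFun z := (fun i => ((z.1 i : ℤ) : ZMod (4 * N i + 1)), z.2)
  map_zero' := by
    refine Prod.ext ?_ rfl
    funext i
    show ((0 : ℤ) : ZMod (4 * N i + 1)) = 0
    exact Int.cast_zero
  map_add' := by
    intro a b
    refine Prod.ext ?_ rfl
    funext i
    show ((a.1 i + b.1 i : ℤ) : ZMod (4 * N i + 1)) = _
    exact Int.cast_add _ _

/-- the map to the group -/
def toG {k : ℕ} (v : Fin k → G) (H : AddSubgroup G) : ((Fin k → ℤ) × H) →+ G where
  toFun z := comb v z.1 + z.2
  map_zero' := by simp
  map_add' := by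
    intro a b
    show comb v (a.1 + b.1) + ((a.2 + b.2 : H) : G) = _
    rw [map_add, AddSubgroup.coe_add]
    abel

open Classical in
/-- the lift of an element -/
noncomputable def zz {k : ℕ} (v : Fin k → G) (H : AddSubgroup G) (t : G) (x : G → Fin k → ℤ)
    (a : G) : (Fin k → ℤ) × H :=
  (x a, if h : a - t - comb v (x a) ∈ H then ⟨_, h⟩ else 0)

theorem zz_spec {k : ℕ} {v : Fin k → G} {N : Fin k → ℕ} {H : AddSubgroup G} {t : G}
    {x : G → Fin k → ℤ} {A : Finset G} (hL : Lift A v N H t x) {a : G} (ha : a ∈ A) :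
    toG v H (zz v H t x a) = a - t := by
  have h1 : (zz v H t x a).2 = ⟨_, hL.mem a ha⟩ := dif_pos (hL.mem a ha)
  show comb v (x a) + (((zz v H t x a).2 : H) : G) = a - t
  rw [h1]
  show comb v (x a) + (a - t - comb v (x a)) = a - t
  abel

theorem red_surj {k : ℕ} (N : Fin k → ℕ) (H : AddSubgroup G) : Function.Surjective (red N H) := by
  intro m
  have h : ∀ i, ∃ c : ℤ, ((c : ℤ) : ZMod (4 * N i + 1)) = m.1 i :=
    fun i => ZMod.intCast_surjective (m.1 i)
  choose c hc using h
  exact ⟨(c, m.2), Prod.ext (funext hc) rfl⟩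

/-- integers which are congruent and close are equal -/
theorem close {n : ℕ} {a b : ℤ} (h : (a : ZMod (4 * n + 1)) = (b : ZMod (4 * n + 1)))
    (hab : |a - b| ≤ 4 * n) : a = b := by
  rw [ZMod.intCast_eq_intCast_iff_dvd_sub] at h
  obtain ⟨m, hm⟩ := h
  have h1 := abs_le.1 hab
  have hm0 : m = 0 := by
    by_contra hne
    rcases lt_or_gt_of_ne hne with hlt | hgt
    · have : m ≤ -1 := by omega
      push_cast at hm
      nlinarith
    · have : 1 ≤ m := by omega
      push_cast at hm
      nlinarith
  rw [hm0, mul_zero] at hm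
  linarith

/-- **The Freiman isomorphism with a subset of the model.** -/
theorem model {k : ℕ} {v : Fin k → G} {N : Fin k → ℕ} {H : AddSubgroup G} {t : G}
    {x : G → Fin k → ℤ} {A : Finset G} (hL : Lift A v N H t x) {a b c d : G} (ha : a ∈ A)
    (hb : b ∈ A) (hc : c ∈ A) (hd : d ∈ A) :
    red N H (zz v H t x a) + red N H (zz v H t x b) =
      red N H (zz v H t x c) + red N H (zz v H t x d) ↔ a + b = c + d := by
  have key : zz v H t x a + zz v H t x b = zz v H t x c + zz v H t x d ↔ a + b = c + d := by
    constructor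
    · intro h
      have h1 := congrArg (toG v H) h
      rw [map_add, map_add, zz_spec hL ha, zz_spec hL hb, zz_spec hL hc, zz_spec hL hd] at h1
      have h2 : a + b - (t + t) = c + d - (t + t) := by
        rw [show a + b - (t + t) = a - t + (b - t) by abel,
          show c + d - (t + t) = c - t + (d - t) by abel]
        exact h1
      exact sub_left_injective h2
    · intro h
      have h1 : comb v (x a + x b - (x c + x d)) ∈ H := by
        have e : comb v (x a + x b - (x c + x d)) =
            (c - t - comb v (x c)) + (d - t - comb v (x d)) -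
              ((a - t - comb v (x a)) + (b - t - comb v (x b))) := by
          rw [map_sub, map_add, map_add]
          have e2 : (c - t - comb v (x c)) + (d - t - comb v (x d)) -
              ((a - t - comb v (x a)) + (b - t - comb v (x b))) =
              (c + d) - (a + b) + (comb v (x a) + comb v (x b) - (comb v (x c) + comb v (x d))) := by
            abel
          rw [e2, h, sub_self, zero_add]
        rw [e]
        exact H.sub_mem (H.add_mem (hL.mem c hc) (hL.mem d hd))
          (H.add_mem (hL.mem a ha) (hL.mem b hb))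
      have h2 := hL.frei a ha b hb c hc d hd h1
      refine Prod.ext h2 ?_
      apply Subtype.ext
      have h3 : toG v H (zz v H t x a + zz v H t x b) = toG v H (zz v H t x c + zz v H t x d) := by
        rw [map_add, map_add, zz_spec hL ha, zz_spec hL hb, zz_spec hL hc, zz_spec hL hd]
        rw [show a - t + (b - t) = a + b - (t + t) by abel, h]
        abel
      have h4 : comb v (x a + x b) + (((zz v H t x a + zz v H t x b).2 : H) : G) =
          comb v (x c + x d) + (((zz v H t x c + zz v H t x d).2 : H) : G) := h3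
      rw [h2] at h4
      exact add_left_cancel h4
  rw [← key, ← map_add, ← map_add]
  constructor
  · intro h
    refine Prod.ext ?_ ?_
    · funext i
      have h1 : (((x a i + x b i : ℤ)) : ZMod (4 * N i + 1)) = ((x c i + x d i : ℤ) : ZMod (4 * N i + 1)) :=
        congrFun (congrArg Prod.fst h) i
      refine close h1 ?_
      have h2 := abs_le.1 (hL.box a ha i)
      have h3 := abs_le.1 (hL.box b hb i)
      have h4 := abs_le.1 (hL.box c hc i)
      have h5 := abs_le.1 (hL.box d hd i)
      show |x a i + x b i - (x c i + x d i)| ≤ 4 * (N i : ℤ)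
      rw [abs_le]
      constructor <;> linarith [h2.1, h2.2, h3.1, h3.2, h4.1, h4.2, h5.1, h5.2]
    · have h1 := congrArg Prod.snd h
      exact h1
  · intro h
    rw [h]

theorem model_inj {k : ℕ} {v : Fin k → G} {N : Fin k → ℕ} {H : AddSubgroup G} {t : G}
    {x : G → Fin k → ℤ} {A : Finset G} (hL : Lift A v N H t x) :
    Set.InjOn (fun a => red N H (zz v H t x a)) (A : Set G) := by
  intro a ha b hb h
  have h1 := (model hL (Finset.mem_coe.1 ha) (Finset.mem_coe.1 ha) (Finset.mem_coe.1 hb)
    (Finset.mem_coe.1 ha)).1 (by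
      have h' : red N H (zz v H t x a) = red N H (zz v H t x b) := h
      rw [← h'])
  exact add_right_cancel h1

theorem card_grp {k : ℕ} (N : Fin k → ℕ) (H : AddSubgroup G) [Finite H] :
    Nat.card (Grp N H) = (∏ i, (4 * N i + 1)) * Nat.card H := by
  rw [Nat.card_prod, Nat.card_pi]
  congr 1
  exact Finset.prod_congr rfl fun i _ => Nat.card_zmod _

/-- A convex symmetric set with finitely many integer points. -/
theorem hullSym {n : ℕ} {D : Set (Fin n → ℝ)} (hc : Convex ℝ D) (hs : ∀ y ∈ D, -y ∈ D)
    (h0 : (0 : Fin n → ℝ) ∈ D) (hf : (lat D).Finite) : ∃ W, Sym W ∧ lat W = lat D := by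
  have hsymm : -(re '' lat D) = re '' lat D := by
    ext y
    rw [Set.mem_neg]
    constructor
    · rintro ⟨v, hv, e⟩
      refine ⟨-v, ?_, ?_⟩
      · show re (-v) ∈ D
        rw [re_neg]
        exact hs _ hv
      · rw [re_neg, e, neg_neg]
    · rintro ⟨v, hv, rfl⟩
      refine ⟨-v, ?_, re_neg v⟩
      show re (-v) ∈ D
      rw [re_neg]
      exact hs _ hv
  refine ⟨convexHull ℝ (re '' lat D), ⟨convex_convexHull ℝ _, (hf.image re).isCompact_convexHull ℝ,
    ?_, ?_⟩, ?_⟩
  · intro y hy
    have h1 : -convexHull ℝ (re '' lat D) = convexHull ℝ (re '' lat D) := by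
      rw [← convexHull_neg, hsymm]
    rw [← h1, Set.mem_neg, neg_neg]
    exact hy
  · refine ⟨re 0, subset_convexHull ℝ _ ⟨0, ?_, rfl⟩⟩
    show re 0 ∈ D
    have : re (0 : Fin n → ℤ) = 0 := by funext i; simp [re]
    rw [this]
    exact h0
  · ext v
    constructor
    · intro hv
      exact convexHull_min (by rintro _ ⟨u, hu, rfl⟩; exact hu) hc hv
    · intro hv
      exact subset_convexHull ℝ _ ⟨v, hv, rfl⟩

theorem comb_basis {d : ℕ} {M : Type*} [AddCommGroup M] (ψ : (Fin d → ℤ) →+ M) (u : Fin d → ℤ) :
    ψ u = ∑ j, u j • ψ (Pi.single j 1) := by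
  have h1 : u = ∑ j, u j • (Pi.single j (1 : ℤ) : Fin d → ℤ) := by
    have := (Pi.basisFun ℤ (Fin d)).sum_repr u
    simpa using this.symm
  conv_lhs => rw [h1]
  rw [map_sum]
  exact Finset.sum_congr rfl fun j _ => map_zsmul ψ _ _

end Pool.Agent.Q285.FinMod
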