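import Pool.Agent.Q285.FinMod.C

/-!
# The pull-back of coset progressions from the model
-/

set_option autoImplicit false

namespace Pool.Agent.Q285.FinMod

open Finset Pool.Agent.Y806.DF
open scoped Pointwise

universe u

variable {G : Type u} [AddCommGroup G]

theorem comb_append {Z : Type u} [AddCommGroup Z] {d r : ℕ} (e : Fin d → Z) (z : Fin r → Z)
    (v : Fin (d + r) → ℤ) :
    comb (Fin.append e z) v = comb e (fun i => v (Fin.castAdd r i)) +
      comb z (fun i => v (Fin.natAdd d i)) := by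
  show ∑ i, v i • Fin.append e z i = ∑ i, v (Fin.castAdd r i) • e i + ∑ i, v (Fin.natAdd d i) • z i
  rw [Fin.sum_univ_add]
  simp only [Fin.append_left, Fin.append_right]

/-- a basis of the projection of a subgroup of `ℤ^k × H` -/
theorem exists_basis {k : ℕ} {H : AddSubgroup G} (E : AddSubgroup ((Fin k → ℤ) × H)) :
    ∃ (r : ℕ) (z : Fin r → ((Fin k → ℤ) × H)), r ≤ k ∧ (∀ m, comb z m ∈ E) ∧
      (∀ m m', (comb z m).1 = (comb z m').1 → m = m') ∧
      ∀ y ∈ E, ∃ m, (comb z m).1 = y.1 := by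
  classical
  set P : Submodule ℤ (Fin k → ℤ) :=
    AddSubgroup.toIntSubmodule (E.map (AddMonoidHom.fst (Fin k → ℤ) H)) with hP
  obtain ⟨r, b⟩ := Submodule.basisOfPid (Pi.basisFun ℤ (Fin k)) P
  have hr : r ≤ k := by
    have h1 : Module.finrank ℤ P = r := by
      rw [Module.finrank_eq_card_basis b, Fintype.card_fin]
    rw [← h1]
    have := Submodule.finrank_le P
    simpa using this
  have hz : ∀ j, ∃ y ∈ E, y.1 = (b j : Fin k → ℤ) := by
    intro j
    have h1 : ((b j : Fin k → ℤ)) ∈ E.map (AddMonoidHom.fst (Fin k → ℤ) H) := (b j).2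
    obtain ⟨y, hy, e⟩ := h1
    exact ⟨y, hy, e⟩
  choose z hzE hz1 using hz
  have hfst : ∀ m : Fin r → ℤ, (comb z m).1 = ∑ j, m j • (b j : Fin k → ℤ) := by
    intro m
    have h1 : (AddMonoidHom.fst (Fin k → ℤ) H) (comb z m) = ∑ j, m j • (b j : Fin k → ℤ) := by
      show (AddMonoidHom.fst (Fin k → ℤ) H) (∑ j, m j • z j) = _
      rw [map_sum]
      refine Finset.sum_congr rfl fun j _ => ?_
      rw [map_zsmul]
      congr 1
      exact hz1 j
    exact h1
  refine ⟨r, z, hr, ?_, ?_, ?_⟩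
  · intro m
    show ∑ j, m j • z j ∈ E
    exact E.sum_mem fun j _ => E.zsmul_mem (hzE j) _
  · intro m m' h
    rw [hfst, hfst] at h
    have h2 : ∑ j, m j • b j = ∑ j, m' j • b j := by
      apply Subtype.ext
      rw [Submodule.coe_sum, Submodule.coe_sum]
      exact h
    have h3 : b.equivFun.symm m = b.equivFun.symm m' := by
      rw [Module.Basis.equivFun_symm_apply, Module.Basis.equivFun_symm_apply]
      exact h2
    exact b.equivFun.symm.injective h3
  · intro y hy
    have hyP : y.1 ∈ P := ⟨y, hy, rfl⟩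
    refine ⟨fun j => b.repr ⟨y.1, hyP⟩ j, ?_⟩
    rw [hfst]
    have h1 := b.sum_repr ⟨y.1, hyP⟩
    have h2 := congrArg (Subtype.val) h1
    rw [Submodule.coe_sum] at h2
    exact h2

/-- **Pull-back.** A dense part of the model in a coset progression gives a dense part of the
original set in a coset progression. -/
theorem pull {k : ℕ} {v : Fin k → G} {N : Fin k → ℕ} {H : AddSubgroup G} [Finite H] {t : G}
    {x : G → Fin k → ℤ} {A : Finset G} (hL : Lift A v N H t x) {d : ℕ} {D : Set (Fin d → ℝ)}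
    (hD : Sym D) (ψ : (Fin d → ℤ) →+ Grp N H) (H' : AddSubgroup (Grp N H)) (s : Grp N H)
    (A₃ : Finset G) (hA₃ : A₃ ⊆ A) (hne : A₃.Nonempty)
    (hcov : ∀ a ∈ A₃, ∃ u ∈ lat D, ∃ h ∈ H', red N H (zz v H t x a) = s + ψ u + h) :
    ∃ (n : ℕ) (B : Set (Fin n → ℝ)) (θ : (Fin n → ℤ) →+ G) (H'' : AddSubgroup G) (g : G),
      n ≤ d + k ∧ Sym B ∧ Finite H'' ∧
      (lat B).ncard * Nat.card H'' ≤ 4 ^ d * ((lat D).ncard * Nat.card H') ∧
      ∀ a ∈ A₃, ∃ c ∈ lat B, ∃ h ∈ H'', a = g + θ c + h := by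
  classical
  have hfinM : Finite (Grp N H) := by
    have : ∀ i : Fin k, NeZero (4 * N i + 1) := fun i => ⟨by omega⟩
    infer_instance
  have hfinH' : Finite H' := inferInstance
  have hlift : ∀ j : Fin d, ∃ y, red N H y = ψ (Pi.single j 1) := fun j => red_surj N H _
  choose e he using hlift
  have hψ : ∀ u, red N H (comb e u) = ψ u := by
    intro u
    show red N H (∑ j, u j • e j) = ψ u
    rw [map_sum, comb_basis ψ u]
    exact Finset.sum_congr rfl fun j _ => by rw [map_zsmul, he]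
  set E : AddSubgroup ((Fin k → ℤ) × H) := H'.comap (red N H) with hE
  obtain ⟨r, z, hr, hzE, hzinj, hzsur⟩ := exists_basis E
  set F₁ : AddSubgroup H := E.comap (AddMonoidHom.inr (Fin k → ℤ) H) with hF₁
  set θ₀ : (Fin (d + r) → ℤ) →+ ((Fin k → ℤ) × H) := comb (Fin.append e z) with hθ₀
  have hθ₀' : ∀ c, θ₀ c = comb e (fun i => c (Fin.castAdd r i)) +
      comb z (fun i => c (Fin.natAdd d i)) := fun c => comb_append e z c
  set φ₀ : (Fin (d + r) → ℤ) →+ (Fin k → ℤ) := (AddMonoidHom.fst (Fin k → ℤ) H).comp θ₀ with hφ₀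
  have hφ₀' : ∀ c, φ₀ c = (θ₀ c).1 := fun c => rfl
  set D' : Set (Fin (d + r) → ℝ) :=
    {y | (fun i => y (Fin.castAdd r i)) ∈ (2 : ℝ) • D ∧ ∀ i, |ext φ₀ y i| ≤ 2 * N i} with hD'
  have hlatD' : ∀ c, c ∈ lat D' ↔ (fun i => c (Fin.castAdd r i)) ∈ lat ((2 : ℝ) • D) ∧
      ∀ i, |(θ₀ c).1 i| ≤ 2 * (N i : ℤ) := by
    intro c
    have h1 : ext φ₀ (re c) = re (φ₀ c) := ext_re φ₀ c
    constructor
    · rintro ⟨h2, h3⟩
      refine ⟨h2, fun i => ?_⟩
      have h4 := h3 i
      rw [h1] at h4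
      have h5 : ((|(θ₀ c).1 i| : ℤ) : ℝ) ≤ ((2 * (N i : ℤ) : ℤ) : ℝ) := by
        push_cast
        exact h4
      exact_mod_cast h5
    · rintro ⟨h2, h3⟩
      refine ⟨h2, fun i => ?_⟩
      rw [h1]
      have h5 : ((|(θ₀ c).1 i| : ℤ) : ℝ) ≤ ((2 * (N i : ℤ) : ℤ) : ℝ) := by exact_mod_cast h3 i
      push_cast at h5
      exact h5
  have hconv : Convex ℝ D' := by
    intro y hy y' hy' a b ha hb hab
    refine ⟨?_, ?_⟩
    · have h1 := (hD.conv.smul (2 : ℝ)) hy.1 hy'.1 ha hb hab
      exact h1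
    · intro i
      rw [map_add, map_smul, map_smul]
      show |a * ext φ₀ y i + b * ext φ₀ y' i| ≤ 2 * N i
      have h1 := hy.2 i
      have h2 := hy'.2 i
      calc |a * ext φ₀ y i + b * ext φ₀ y' i| ≤ |a * ext φ₀ y i| + |b * ext φ₀ y' i| := abs_add_le _ _
        _ = a * |ext φ₀ y i| + b * |ext φ₀ y' i| := by
          rw [abs_mul, abs_mul, abs_of_nonneg ha, abs_of_nonneg hb]
        _ ≤ a * (2 * N i) + b * (2 * N i) :=
          add_le_add (mul_le_mul_of_nonneg_left h1 ha) (mul_le_mul_of_nonneg_left h2 hb)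
        _ = 2 * N i := by rw [← add_mul, hab, one_mul]
  have hsymm : ∀ y ∈ D', -y ∈ D' := by
    intro y hy
    refine ⟨?_, ?_⟩
    · exact (hD.smul (2 : ℝ)).symm _ hy.1
    · intro i
      rw [map_neg, Pi.neg_apply, abs_neg]
      exact hy.2 i
  have hzero : (0 : Fin (d + r) → ℝ) ∈ D' := by
    refine ⟨(hD.smul (2 : ℝ)).zero, ?_⟩
    intro i
    rw [map_zero, Pi.zero_apply, abs_zero]
    positivity
  -- injectivity
  have hinj : ∀ c ∈ lat D', ∀ c' ∈ lat D', (fun i => c (Fin.castAdd r i)) = (fun i => c' (Fin.castAdd r i)) →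
      (red N H (θ₀ c)).1 = (red N H (θ₀ c')).1 → c = c' := by
    intro c hc c' hc' h1 h2
    have h3 := ((hlatD' c).1 hc).2
    have h4 := ((hlatD' c').1 hc').2
    have h5 : (θ₀ c).1 = (θ₀ c').1 := by
      funext i
      have h6 : (((θ₀ c).1 i : ℤ) : ZMod (4 * N i + 1)) = (((θ₀ c').1 i : ℤ) : ZMod (4 * N i + 1)) :=
        congrFun h2 i
      refine close h6 ?_
      have h7 := abs_le.1 (h3 i)
      have h8 := abs_le.1 (h4 i)
      rw [abs_le]
      constructor <;> linarith [h7.1, h7.2, h8.1, h8.2]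
    have h6 : (fun i => c (Fin.natAdd d i)) = (fun i => c' (Fin.natAdd d i)) := by
      apply hzinj
      rw [hθ₀', hθ₀', h1] at h5
      have h7 : (comb e (fun i => c' (Fin.castAdd r i))).1 + (comb z (fun i => c (Fin.natAdd d i))).1 =
          (comb e (fun i => c' (Fin.castAdd r i))).1 + (comb z (fun i => c' (Fin.natAdd d i))).1 := h5
      exact add_left_cancel h7
    funext i
    refine Fin.addCases (fun j => ?_) (fun j => ?_) i
    · exact congrFun h1 j
    · exact congrFun h6 j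
  have hredθ : ∀ (c : Fin (d + r) → ℤ) (f : F₁),
      red N H (θ₀ c + (0, (f : H))) - ψ (fun i => c (Fin.castAdd r i)) ∈ H' := by
    intro c f
    have h1 : red N H (θ₀ c + (0, (f : H))) - ψ (fun i => c (Fin.castAdd r i)) =
        red N H (comb z (fun i => c (Fin.natAdd d i)) + (0, (f : H))) := by
      rw [hθ₀', ← hψ, ← map_sub]
      congr 1
      abel
    rw [h1]
    have h2 : comb z (fun i => c (Fin.natAdd d i)) + (0, (f : H)) ∈ E := by
      refine E.add_mem (hzE _) ?_
      exact f.2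
    exact h2
  have hfin2 : (lat ((2 : ℝ) • D)).Finite := hD.finite 2
  have hfin2' : Finite (lat ((2 : ℝ) • D)) := hfin2.to_subtype
  have hfin : (lat D').Finite := by
    have h1 : Function.Injective (fun c : lat D' =>
        ((⟨_, ((hlatD' c.1).1 c.2).1⟩, red N H (θ₀ c.1)) : (lat ((2 : ℝ) • D)) × Grp N H)) := by
      intro c c' h
      have h2 := congrArg Prod.fst h
      have h3 := congrArg Subtype.val h2
      have h4 := congrArg Prod.snd h
      have h5 : red N H (θ₀ c.1) = red N H (θ₀ c'.1) := h4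
      exact Subtype.ext (hinj c.1 c.2 c'.1 c'.2 h3 (by rw [h5]))
    have h2 : Finite (lat D') := Finite.of_injective _ h1
    exact Set.toFinite _
  obtain ⟨W, hW, hlatW⟩ := hullSym hconv hsymm hzero hfin
  have hfin' : Finite (lat D') := hfin.to_subtype
  have hcount : (lat D').ncard * Nat.card F₁ ≤ (lat ((2 : ℝ) • D)).ncard * Nat.card H' := by
    rw [← Nat.card_coe_set_eq, ← Nat.card_coe_set_eq, ← Nat.card_prod, ← Nat.card_prod]
    refine Nat.card_le_card_of_injective (fun p : (lat D') × F₁ =>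
      ((⟨_, ((hlatD' p.1.1).1 p.1.2).1⟩, ⟨_, hredθ p.1.1 p.2⟩) : (lat ((2 : ℝ) • D)) × H')) ?_
    rintro ⟨c, f⟩ ⟨c', f'⟩ h
    have h3 : (fun i => c.1 (Fin.castAdd r i)) = (fun i => c'.1 (Fin.castAdd r i)) :=
      congrArg Subtype.val (congrArg Prod.fst h)
    have h4 : red N H (θ₀ c.1 + (0, (f : H))) - ψ (fun i => c.1 (Fin.castAdd r i)) =
        red N H (θ₀ c'.1 + (0, (f' : H))) - ψ (fun i => c'.1 (Fin.castAdd r i)) :=
      congrArg Subtype.val (congrArg Prod.snd h)
    rw [h3] at h4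
    have h5 := sub_left_injective h4
    have h5' : red N H (θ₀ c.1 + (0, (f : H))) = red N H (θ₀ c'.1 + (0, (f' : H))) := h5
    have h6 : (red N H (θ₀ c.1)).1 = (red N H (θ₀ c'.1)).1 := by
      have h7 := congrArg Prod.fst h5'
      rw [map_add, map_add] at h7
      have h8 : ∀ f : H, (red N H ((0 : Fin k → ℤ), f)).1 = 0 := by
        intro f
        funext i
        exact Int.cast_zero
      rw [Prod.fst_add, Prod.fst_add, h8, h8, add_zero, add_zero] at h7
      exact h7
    have h7 : c = c' := Subtype.ext (hinj c.1 c.2 c'.1 c'.2 h3 h6)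
    subst h7
    have h8 := congrArg Prod.snd h5'
    have h9 : (θ₀ c.1).2 + (f : H) = (θ₀ c.1).2 + (f' : H) := h8
    have h10 : f = f' := Subtype.ext (add_left_cancel h9)
    rw [h10]
  obtain ⟨a₀, ha₀⟩ := hne
  obtain ⟨u₀, hu₀, h₀, hh₀, e₀⟩ := hcov a₀ ha₀
  refine ⟨d + r, W, (toG v H).comp θ₀, F₁.map H.subtype, a₀, by omega, hW, ?_, ?_, ?_⟩
  · exact Finite.of_surjective (F₁.equivMapOfInjective H.subtype H.subtype_injective)
      (F₁.equivMapOfInjective H.subtype H.subtype_injective).surjective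
  · have h1 : Nat.card (F₁.map H.subtype) = Nat.card F₁ :=
      (Nat.card_congr (F₁.equivMapOfInjective H.subtype H.subtype_injective).toEquiv).symm
    have h2 : (lat ((2 : ℝ) • D)).ncard ≤ 4 ^ d * (lat D).ncard := by
      have h3 := num_double hD (t := 1) (by norm_num)
      unfold num at h3
      rw [mul_one, one_smul] at h3
      exact h3
    rw [hlatW, h1]
    calc (lat D').ncard * Nat.card F₁ ≤ (lat ((2 : ℝ) • D)).ncard * Nat.card H' := hcount
      _ ≤ (4 ^ d * (lat D).ncard) * Nat.card H' := Nat.mul_le_mul_right _ h2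
      _ = _ := by ring
  · intro a ha
    obtain ⟨u, hu, h, hh, ea⟩ := hcov a ha
    have hu2 : u - u₀ ∈ lat ((2 : ℝ) • D) := by
      have hu' : u ∈ lat ((1 : ℝ) • D) := by rw [one_smul]; exact hu
      have hu₀' : u₀ ∈ lat ((1 : ℝ) • D) := by rw [one_smul]; exact hu₀
      have h1 := hD.sub (by norm_num) (by norm_num) hu' hu₀'
      norm_num at h1
      exact h1
    set y := zz v H t x a - zz v H t x a₀ with hy
    have hy1 : y - comb e (u - u₀) ∈ E := by
      show red N H (y - comb e (u - u₀)) ∈ H'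
      have h2 : red N H (y - comb e (u - u₀)) = h - h₀ := by
        rw [map_sub, hψ, hy, map_sub, ea, e₀, map_sub]
        abel
      rw [h2]
      exact H'.sub_mem hh hh₀
    obtain ⟨m, hm⟩ := hzsur _ hy1
    have hy2 : y - comb e (u - u₀) - comb z m ∈ E := E.sub_mem hy1 (hzE m)
    have hy3 : (y - comb e (u - u₀) - comb z m).1 = 0 := by
      rw [Prod.fst_sub, hm, sub_self]
    obtain ⟨f, hf⟩ : ∃ f : H, y - comb e (u - u₀) - comb z m = (0, f) :=
      ⟨(y - comb e (u - u₀) - comb z m).2, Prod.ext hy3 rfl⟩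
    have hfF : f ∈ F₁ := by
      show ((0 : Fin k → ℤ), f) ∈ E
      rw [← hf]
      exact hy2
    have hθc : θ₀ (Fin.append (u - u₀) m) = y - (0, f) := by
      rw [hθ₀']
      simp only [Fin.append_left, Fin.append_right]
      rw [← hf]
      have e1 : (fun i => (u - u₀) i) = u - u₀ := rfl
      rw [e1]
      abel
    refine ⟨Fin.append (u - u₀) m, ?_, (f : G), ⟨f, hfF, rfl⟩, ?_⟩
    · rw [hlatW, hlatD']
      refine ⟨?_, ?_⟩
      · simp only [Fin.append_left]
        exact hu2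
      · intro i
        rw [hθc]
        have h1 : (y - ((0 : Fin k → ℤ), f)).1 i = x a i - x a₀ i := by
          show x a i - x a₀ i - 0 = x a i - x a₀ i
          rw [sub_zero]
        rw [h1]
        have h2 := abs_le.1 (hL.box a (hA₃ ha) i)
        have h3 := abs_le.1 (hL.box a₀ (hA₃ ha₀) i)
        rw [abs_le]
        constructor <;> linarith [h2.1, h2.2, h3.1, h3.2]
    · show a = a₀ + toG v H (θ₀ (Fin.append (u - u₀) m)) + f
      rw [hθc, map_sub, hy, map_sub, zz_spec hL (hA₃ ha), zz_spec hL (hA₃ ha₀)]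
      have h1 : toG v H ((0 : Fin k → ℤ), f) = f := by
        show comb v 0 + (f : G) = f
        rw [map_zero, zero_add]
      rw [h1]
      abel

end Pool.Agent.Q285.FinMod
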