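import Pool.Agent.Y806.DF.D
import Pool.Agent.Q285.FinMod.D

/-!
# The polynomial Freiman-Ruzsa conjecture for quasi-polynomially dense subsets of finite groups
-/

set_option autoImplicit false

namespace Pool.Agent.Q285.FinMod

open Finset Pool.Agent.Y806.DF
open scoped Pointwise

universe u

/-- Q1 for the sets `A` in a FINITE abelian group of order at most
`exp (8000000 ε⁻² (log 2K)^(1+ε)) |A|`. -/
def DensePFR (ε : ℝ) : Prop :=
  ∃ C : ℝ, ∀ (Γ : Type u) [AddCommGroup Γ] [DecidableEq Γ] (K : ℝ) (A : Finset Γ), A.Nonempty →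
    ((A + A).card : ℝ) ≤ K * A.card →
    Finite Γ →
    (Nat.card Γ : ℝ) ≤ Real.exp (8000000 / ε ^ 2 * Real.log (2 * K) ^ (1 + ε)) * A.card →
    ∃ (d : ℕ) (B : Set (Fin d → ℝ)) (ψ : (Fin d → ℤ) →+ Γ) (H : AddSubgroup Γ) (T : Finset Γ),
      (d : ℝ) ≤ C * Real.log (2 * K) ∧ Body B ∧ Finite H ∧
      (lat B).ncard * Nat.card H ≤ A.card ∧ (T.card : ℝ) ≤ C * K ^ C ∧ Cov B ψ H T A

theorem sum_card {G M : Type*} [AddCommGroup G] [AddCommGroup M] [DecidableEq G] [DecidableEq M]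
    (A : Finset G) (f : G → M)
    (h : ∀ a ∈ A, ∀ b ∈ A, ∀ c ∈ A, ∀ d ∈ A, f a + f b = f c + f d ↔ a + b = c + d) :
    (A.image f + A.image f).card ≤ (A + A).card := by
  classical
  let F : G → M := fun s =>
    if h : ∃ p : G × G, p.1 ∈ A ∧ p.2 ∈ A ∧ p.1 + p.2 = s then f h.choose.1 + f h.choose.2 else 0
  have h1 : A.image f + A.image f ⊆ (A + A).image F := by
    intro y hy
    obtain ⟨y1, hy1, y2, hy2, rfl⟩ := Finset.mem_add.1 hy
    obtain ⟨a, ha, rfl⟩ := Finset.mem_image.1 hy1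
    obtain ⟨b, hb, rfl⟩ := Finset.mem_image.1 hy2
    refine Finset.mem_image.2 ⟨a + b, Finset.add_mem_add ha hb, ?_⟩
    have hex : ∃ p : G × G, p.1 ∈ A ∧ p.2 ∈ A ∧ p.1 + p.2 = a + b := ⟨(a, b), ha, hb, rfl⟩
    have h2 : F (a + b) = f hex.choose.1 + f hex.choose.2 := dif_pos hex
    rw [h2]
    obtain ⟨h3, h4, h5⟩ := hex.choose_spec
    exact (h _ h3 _ h4 a ha b hb).2 h5
  exact (Finset.card_le_card h1).trans Finset.card_image_le

/-- The data of `DimFree` from a symmetric convex set. -/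
theorem data_of {Γ : Type*} [AddCommGroup Γ] [DecidableEq Γ] {R : ℝ} {A A₃ : Finset Γ} {d : ℕ}
    {B : Set (Fin d → ℝ)} (hB : Sym B) (θ : (Fin d → ℤ) →+ Γ) (H : AddSubgroup Γ) (g : Γ)
    (hH : Finite H) (hR : 1 ≤ R) (h4 : (4 : ℝ) ^ d ≤ R)
    (hsize : ((lat B).ncard : ℝ) * Nat.card H ≤ R * A.card) (hsub : A₃ ⊆ A)
    (hmeet : (A.card : ℝ) ≤ R * A₃.card)
    (hcov : ∀ a ∈ A₃, ∃ c ∈ lat B, ∃ h ∈ H, a = g + θ c + h) :
    ∃ X : Finset (Fin d → ℤ), Data R A X θ H g := by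
  classical
  have hfin : (lat B).Finite := lat_finite hB.comp.isBounded
  refine ⟨hfin.toFinset, ⟨?_, hH, ?_, ?_, ?_, ?_⟩⟩
  · refine ⟨0, ?_⟩
    rw [Set.Finite.mem_toFinset]
    show re 0 ∈ B
    have : re (0 : Fin d → ℤ) = 0 := by funext i; simp [re]
    rw [this]
    exact hB.zero
  · have h1 : (hfin.toFinset + hfin.toFinset).card ≤ num B 2 := by
      rw [num, Set.ncard_eq_toFinset_card _ (hB.finite 2)]
      refine Finset.card_le_card ?_
      intro x hx
      obtain ⟨a, ha, b, hb, rfl⟩ := Finset.mem_add.1 hx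
      rw [Set.Finite.mem_toFinset] at ha hb ⊢
      have ha' : a ∈ lat ((1 : ℝ) • B) := by rw [one_smul]; exact ha
      have hb' : b ∈ lat ((1 : ℝ) • B) := by rw [one_smul]; exact hb
      have h2 := hB.add (by norm_num) (by norm_num) ha' hb'
      norm_num at h2
      exact h2
    have h2 : num B 2 ≤ 4 ^ d * hfin.toFinset.card := by
      have h3 := num_double hB (t := 1) (by norm_num)
      rw [mul_one] at h3
      have h4 : num B 1 = hfin.toFinset.card := by
        rw [num, one_smul]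
        exact Set.ncard_eq_toFinset_card _ hfin
      rwa [h4] at h3
    calc ((hfin.toFinset + hfin.toFinset).card : ℝ) ≤ ((4 ^ d * hfin.toFinset.card : ℕ) : ℝ) := by
          exact_mod_cast h1.trans h2
      _ = (4 : ℝ) ^ d * hfin.toFinset.card := by push_cast; rfl
      _ ≤ _ := mul_le_mul_of_nonneg_right h4 (Nat.cast_nonneg _)
  · have h1 : hull hfin.toFinset ⊆ (hfin.toFinset : Set (Fin d → ℤ)) := by
      intro v hv
      rw [Finset.mem_coe, Set.Finite.mem_toFinset]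
      refine convexHull_min ?_ hB.conv hv
      rintro _ ⟨x, hx, rfl⟩
      rw [Finset.mem_coe, Set.Finite.mem_toFinset] at hx
      exact hx
    have h2 := Set.ncard_le_ncard h1 (Finset.finite_toSet _)
    rw [Set.ncard_coe_finset] at h2
    calc ((hull hfin.toFinset).ncard : ℝ) ≤ 1 * hfin.toFinset.card := by rw [one_mul]; exact_mod_cast h2
      _ ≤ _ := mul_le_mul_of_nonneg_right hR (Nat.cast_nonneg _)
  · rw [Set.ncard_eq_toFinset_card _ hfin] at hsize
    exact hsize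
  · have h1 : (A₃.card : ℝ) ≤
        ({a : Γ | a ∈ A ∧ ∃ x ∈ hfin.toFinset, ∃ h ∈ H, a = g + θ x + h}.ncard : ℝ) := by
      have h2 : (A₃ : Set Γ) ⊆ {a : Γ | a ∈ A ∧ ∃ x ∈ hfin.toFinset, ∃ h ∈ H, a = g + θ x + h} := by
        intro a ha
        obtain ⟨c, hc, h, hh, e⟩ := hcov a (Finset.mem_coe.1 ha)
        exact ⟨hsub (Finset.mem_coe.1 ha), c, (Set.Finite.mem_toFinset _).2 hc, h, hh, e⟩
      have h3 : {a : Γ | a ∈ A ∧ ∃ x ∈ hfin.toFinset, ∃ h ∈ H, a = g + θ x + h}.Finite :=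
        A.finite_toSet.subset fun a ha => ha.1
      have h4 := Set.ncard_le_ncard h2 h3
      rw [Set.ncard_coe_finset] at h4
      exact_mod_cast h4
    exact hmeet.trans (mul_le_mul_of_nonneg_left h1 (by linarith))

theorem dense_imp {ε : ℝ} (hε0 : 0 < ε) (hε1 : ε ≤ 1) (h : DensePFR.{u} ε) : DimFree.{u} := by
  classical
  obtain ⟨C, h⟩ := h
  obtain ⟨n, hn1, hn, hCK⟩ := nat_const C
  obtain ⟨a, ha⟩ : ∃ a : ℕ, a = ⌈200000 / ε⌉₊ := ⟨_, rfl⟩
  have ha1 : 200000 / ε ≤ a := by rw [ha]; exact Nat.le_ceil _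
  obtain ⟨m, hm⟩ : ∃ m : ℕ, m = 2 * (n * (a + 1) + a) + (a + (a + 1) * n) := ⟨_, rfl⟩
  refine ⟨((2 ^ m : ℕ) : ℝ), ?_⟩
  intro Γ _ _ K A hA hK
  have hK1 := one_le_K hA hK
  have hK0 : 0 < K := by linarith
  have h2K : 1 ≤ 2 * K := by linarith
  have hlog0 : 0 ≤ Real.log (2 * K) := Real.log_nonneg h2K
  obtain ⟨k, v, N, H, t, x, A', hk, hHf, hsub, hne, hAA', hvol, hL⟩ := lift hA hK hε0 hε1
  have hAA2 : (A.card : ℝ) ≤ (2 * K) ^ a * A'.card := by
    refine hAA'.trans (mul_le_mul_of_nonneg_right ?_ (Nat.cast_nonneg _))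
    rw [← Real.rpow_natCast]
    exact Real.rpow_le_rpow_of_exponent_le h2K ha1
  set f : Γ → Grp N H := fun b => red N H (zz v H t x b) with hf
  set A2 : Finset (Grp N H) := A'.image f with hA2
  have hcard2 : A2.card = A'.card := Finset.card_image_of_injOn (model_inj hL)
  set K' : ℝ := K * (2 * K) ^ a with hK'
  have hpow1 : 1 ≤ (2 * K) ^ a := one_le_pow₀ h2K
  have hKK' : K ≤ K' := le_mul_of_one_le_right hK0.le hpow1
  have hK'1 : 1 ≤ K' := hK1.trans hKK'
  have h2K' : 2 * K' = (2 * K) ^ (a + 1) := by rw [hK', pow_succ]; ring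
  have hdoub : ((A2 + A2).card : ℝ) ≤ K' * A2.card := by
    have h1 : (A2 + A2).card ≤ (A' + A').card := by
      refine sum_card A' f ?_
      intro b1 hb1 b2 hb2 b3 hb3 b4 hb4
      exact model hL hb1 hb2 hb3 hb4
    have h2 : (A' + A').card ≤ (A + A).card := Finset.card_le_card (Finset.add_subset_add hsub hsub)
    calc ((A2 + A2).card : ℝ) ≤ (A + A).card := by exact_mod_cast h1.trans h2
      _ ≤ K * A.card := hK
      _ ≤ K * ((2 * K) ^ a * A'.card) := mul_le_mul_of_nonneg_left hAA2 hK0.le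
      _ = K' * A2.card := by rw [hcard2, hK']; ring
  have hfinM : Finite (Grp N H) := by
    have : ∀ i : Fin k, NeZero (4 * N i + 1) := fun i => ⟨by omega⟩
    infer_instance
  have hdens : (Nat.card (Grp N H) : ℝ) ≤
      Real.exp (8000000 / ε ^ 2 * Real.log (2 * K') ^ (1 + ε)) * A2.card := by
    rw [card_grp, hcard2, Nat.cast_mul]
    refine hvol.trans (mul_le_mul_of_nonneg_right (Real.exp_le_exp.2 ?_) (Nat.cast_nonneg _))
    refine mul_le_mul_of_nonneg_left ?_ (by positivity)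
    exact Real.rpow_le_rpow hlog0 (Real.log_le_log (by linarith) (by linarith)) (by linarith)
  obtain ⟨d, D, ψ, H', T, hd, hDb, hH', hvol', hT, hcov⟩ :=
    h (Grp N H) K' A2 (hne.image f) hdoub hfinM hdens
  have hD : Sym D := ⟨hDb.1, hDb.2.1, hDb.2.2.2, hDb.2.2.1.mono interior_subset⟩
  obtain ⟨s, hs, hs2⟩ := pigeon T A' A' hne (fun s b => ∃ u ∈ lat D, ∃ h ∈ H', f b = s + ψ u + h)
    subset_rfl (fun b hb => hcov (f b) (Finset.mem_image_of_mem f hb))
  set A₃ := A'.filter (fun b => ∃ u ∈ lat D, ∃ h ∈ H', f b = s + ψ u + h) with hA₃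
  have hA₃ne : A₃.Nonempty := by
    rw [← Finset.card_pos]
    by_contra hcon
    have h0 : A₃.card = 0 := by omega
    rw [h0, mul_zero] at hs2
    have := hne.card_pos
    omega
  obtain ⟨n', B, θ, H'', g, hn', hB, hH'', hcount, hcov'⟩ := pull hL hD ψ H' s A₃
    (Finset.filter_subset _ _) hA₃ne (fun b hb => (Finset.mem_filter.1 hb).2)
  -- numbers
  have hdk : ((d + k : ℕ) : ℝ) ≤ ((n * (a + 1) + a : ℕ) : ℝ) * Real.log (2 * K) := by
    have h1 : (d : ℝ) ≤ n * ((a + 1 : ℕ) * Real.log (2 * K)) := by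
      have h2 : Real.log (2 * K') = (a + 1 : ℕ) * Real.log (2 * K) := by
        rw [h2K', Real.log_pow]
      rw [← h2]
      refine hd.trans (mul_le_mul_of_nonneg_right hn ?_)
      rw [h2]
      positivity
    have h3 : (k : ℝ) ≤ a * Real.log (2 * K) := by
      refine hk.trans (mul_le_mul_of_nonneg_right (le_trans ?_ ha1) hlog0)
      exact div_le_div_of_nonneg_right (by norm_num) hε0.le
    push_cast at h1 ⊢
    nlinarith
  have h4dk : (4 : ℝ) ^ (d + k) ≤ (2 * K) ^ (2 * (n * (a + 1) + a)) := by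
    have hl : Real.log 4 ≤ 2 := by
      rw [show (4 : ℝ) = 2 ^ 2 by norm_num, Real.log_pow]
      have := Real.log_two_lt_d9
      push_cast
      linarith
    have h1 : Real.log ((4 : ℝ) ^ (d + k)) ≤ Real.log ((2 * K) ^ (2 * (n * (a + 1) + a))) := by
      rw [Real.log_pow, Real.log_pow]
      calc ((d + k : ℕ) : ℝ) * Real.log 4 ≤ ((d + k : ℕ) : ℝ) * 2 :=
            mul_le_mul_of_nonneg_left hl (Nat.cast_nonneg _)
        _ ≤ (((n * (a + 1) + a : ℕ) : ℝ) * Real.log (2 * K)) * 2 :=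
            mul_le_mul_of_nonneg_right hdk (by norm_num)
        _ = _ := by push_cast; ring
    exact (Real.log_le_log_iff (by positivity) (by positivity)).1 h1
  have hm1 : (2 * K) ^ (2 * (n * (a + 1) + a)) ≤ (2 * K) ^ m :=
    pow_le_pow_right₀ h2K (by omega)
  have h4n' : (4 : ℝ) ^ n' ≤ (2 * K) ^ m :=
    (pow_le_pow_right₀ (by norm_num) hn').trans (h4dk.trans hm1)
  have h4d : (4 : ℝ) ^ d ≤ (2 * K) ^ m :=
    (pow_le_pow_right₀ (by norm_num) (by omega)).trans (h4dk.trans hm1)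
  have hsubA : A₃ ⊆ A := (Finset.filter_subset _ _).trans hsub
  obtain ⟨X, hX⟩ := data_of (R := (2 * K) ^ m) (A := A) (A₃ := A₃) hB θ H'' g hH''
    (one_le_pow₀ h2K) h4n' (by
      have h1 : (((lat B).ncard * Nat.card H'' : ℕ) : ℝ) ≤
          ((4 ^ d * ((lat D).ncard * Nat.card H') : ℕ) : ℝ) := by exact_mod_cast hcount
      have h2 : (((lat D).ncard * Nat.card H' : ℕ) : ℝ) ≤ A.card := by
        have h3 : A2.card ≤ A.card := by rw [hcard2]; exact Finset.card_le_card hsub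
        exact_mod_cast hvol'.trans h3
      rw [Nat.cast_mul, Nat.cast_mul (4 ^ d)] at h1
      refine h1.trans ?_
      push_cast at h2 ⊢
      exact mul_le_mul h4d h2 (by positivity) (by positivity)) hsubA (by
      have h1 : (A'.card : ℝ) ≤ T.card * A₃.card := by exact_mod_cast hs2
      have h2 : (T.card : ℝ) ≤ (2 * K) ^ ((a + 1) * n) := by
        refine (hT.trans (hCK K' hK'1)).trans ?_
        have h3 : (n : ℝ) ≤ 2 ^ n := by exact_mod_cast Nat.lt_two_pow_self.le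
        calc (n : ℝ) * K' ^ n ≤ 2 ^ n * K' ^ n := mul_le_mul_of_nonneg_right h3 (by positivity)
          _ = (2 * K') ^ n := (mul_pow _ _ _).symm
          _ = (2 * K) ^ ((a + 1) * n) := by rw [h2K', ← pow_mul]
      calc (A.card : ℝ) ≤ (2 * K) ^ a * A'.card := hAA2
        _ ≤ (2 * K) ^ a * ((2 * K) ^ ((a + 1) * n) * A₃.card) := by
          refine mul_le_mul_of_nonneg_left (h1.trans ?_) (by positivity)
          exact mul_le_mul_of_nonneg_right h2 (Nat.cast_nonneg _)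
        _ = (2 * K) ^ (a + (a + 1) * n) * A₃.card := by rw [pow_add]; ring
        _ ≤ (2 * K) ^ m * A₃.card :=
          mul_le_mul_of_nonneg_right (pow_le_pow_right₀ h2K (by omega)) (Nat.cast_nonneg _))
    hcov'
  refine ⟨n', X, θ, H'', g, hX.mono ?_⟩
  calc (2 * K) ^ m = 2 ^ m * K ^ m := mul_pow _ _ _
    _ ≤ ((2 ^ m : ℕ) : ℝ) * K ^ ((2 ^ m : ℕ) : ℝ) := by
      push_cast
      refine mul_le_mul_of_nonneg_left ?_ (by positivity)
      have h5 := pow_le_rpow hK1 (a := m) (b := ((2 ^ m : ℕ) : ℝ)) (by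
        exact_mod_cast Nat.lt_two_pow_self.le)
      push_cast at h5
      exact h5

theorem imp_dense (ε : ℝ) (h : PFR.{u}) : DensePFR.{u} ε := by
  obtain ⟨C, h⟩ := h
  exact ⟨C, fun Γ _ _ K A hA hK _ _ => h Γ K A hA hK⟩

theorem pfr_iff {ε : ℝ} (hε0 : 0 < ε) (hε1 : ε ≤ 1) : PFR.{u} ↔ DensePFR.{u} ε :=
  ⟨imp_dense ε, fun h => free_imp (dense_imp hε0 hε1 h)⟩

end Pool.Agent.Q285.FinMod
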