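import Pool.Agent.Q285.FinMod.E

/-!
# Torsion-free groups: dense subsets of boxes of `ℤ^k`
-/

set_option autoImplicit false

namespace Pool.Agent.Q285.FinMod

open Finset Pool.Agent.Y806.DF
open scoped Pointwise

/-- The polynomial Freiman-Ruzsa conjecture in the integers. -/
def PFRZ : Prop :=
  ∃ C : ℝ, ∀ (K : ℝ) (A : Finset ℤ), 2 ≤ K → A.Nonempty → ((A + A).card : ℝ) ≤ K * A.card →
    ∃ (d : ℕ) (B : Set (Fin d → ℝ)) (ψ : (Fin d → ℤ) →+ ℤ) (T : Finset ℤ),
      (d : ℝ) ≤ C * Real.log K ∧ Body B ∧ (lat B).ncard ≤ A.card ∧ (T.card : ℝ) ≤ C * K ^ C ∧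
      ∀ a ∈ A, ∃ t ∈ T, ∃ x ∈ lat B, a = t + ψ x

/-- The same for the sets `A` in the box `∏ [-N_i, N_i]` of `ℤ^k`, where `k ≤ (30000/ε) log 2K`, of
density at least `exp (-8000000 ε⁻² (log 2K)^(1+ε))`. -/
def BoxPFR (ε : ℝ) : Prop :=
  ∃ C : ℝ, ∀ (K : ℝ) (k : ℕ) (N : Fin k → ℕ) (A : Finset (Fin k → ℤ)), 2 ≤ K → A.Nonempty →
    ((A + A).card : ℝ) ≤ K * A.card →
    (k : ℝ) ≤ 30000 / ε * Real.log (2 * K) → (∀ a ∈ A, ∀ i, |a i| ≤ N i) →
    ((∏ i, (2 * N i + 1) : ℕ) : ℝ) ≤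
      Real.exp (8000000 / ε ^ 2 * Real.log (2 * K) ^ (1 + ε)) * A.card →
    ∃ (d : ℕ) (B : Set (Fin d → ℝ)) (ψ : (Fin d → ℤ) →+ (Fin k → ℤ)) (T : Finset (Fin k → ℤ)),
      (d : ℝ) ≤ C * Real.log K ∧ Body B ∧ (lat B).ncard ≤ A.card ∧ (T.card : ℝ) ≤ C * K ^ C ∧
      ∀ a ∈ A, ∃ t ∈ T, ∃ x ∈ lat B, a = t + ψ x

theorem bot_of_tf {Γ : Type*} [AddCommGroup Γ] (htf : ∀ (n : ℕ) (x : Γ), n ≠ 0 → n • x = 0 → x = 0)
    (H : AddSubgroup Γ) (hH : Finite H) : ∀ h ∈ H, h = 0 := by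
  intro h hh
  have h1 : Nat.card H • (⟨h, hh⟩ : H) = 0 := card_nsmul_eq_zero'
  have h2 : Nat.card H • h = 0 := by
    have h3 := congrArg H.subtype h1
    rw [map_nsmul, map_zero] at h3
    exact h3
  exact htf _ h Nat.card_pos.ne' h2

/-- **The lift in a torsion-free group.** -/
theorem lift_tf {Γ : Type*} [AddCommGroup Γ] [DecidableEq Γ]
    (htf : ∀ (n : ℕ) (x : Γ), n ≠ 0 → n • x = 0 → x = 0) {K ε : ℝ} {A : Finset Γ}
    (hA : A.Nonempty) (hK : ((A + A).card : ℝ) ≤ K * A.card) (hε0 : 0 < ε) (hε1 : ε ≤ 1) :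
    ∃ A' ⊆ A, A'.Nonempty ∧ (A.card : ℝ) ≤ (2 * K) ^ (200000 / ε) * A'.card ∧
      ∃ (k : ℕ) (N : Fin k → ℕ) (v : Fin k → Γ) (t : Γ) (x : Γ → Fin k → ℤ),
        (k : ℝ) ≤ 30000 / ε * Real.log (2 * K) ∧
        ((∏ i, (2 * N i + 1) : ℕ) : ℝ) ≤
          Real.exp (8000000 / ε ^ 2 * Real.log (2 * K) ^ (1 + ε)) * A'.card ∧
        (∀ a ∈ A', a = t + ∑ i, x a i • v i ∧ ∀ i, |x a i| ≤ N i) ∧
        ∀ a ∈ A', ∀ b ∈ A', ∀ c ∈ A', ∀ d ∈ A', x a + x b = x c + x d ↔ a + b = c + d := by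
  obtain ⟨k, v, N, H, t, x, A', hk, hHf, hsub, hne, hAA', hvol, hL⟩ := lift hA hK hε0 hε1
  have hbot := bot_of_tf htf H hHf
  have hcard : Nat.card H = 1 := by
    rw [Nat.card_eq_one_iff_unique]
    refine ⟨⟨fun a b => Subtype.ext ?_⟩, ⟨0⟩⟩
    rw [hbot a.1 a.2, hbot b.1 b.2]
  have hrep : ∀ a ∈ A', a = t + comb v (x a) := by
    intro a ha
    have h1 := hbot _ (hL.mem a ha)
    rw [sub_sub, sub_eq_zero] at h1
    exact h1
  refine ⟨A', hsub, hne, hAA', k, N, v, t, x, hk, ?_, fun a ha => ⟨hrep a ha, hL.box a ha⟩, ?_⟩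
  · rw [hcard, Nat.cast_one, mul_one] at hvol
    refine le_trans ?_ hvol
    exact_mod_cast Finset.prod_le_prod' fun i _ => (by omega : 2 * N i + 1 ≤ 4 * N i + 1)
  · intro a ha b hb c hc d hd
    constructor
    · intro h
      rw [hrep a ha, hrep b hb, hrep c hc, hrep d hd]
      have h1 : comb v (x a) + comb v (x b) = comb v (x c) + comb v (x d) := by
        rw [← map_add, ← map_add, h]
      calc t + comb v (x a) + (t + comb v (x b)) = (t + t) + (comb v (x a) + comb v (x b)) := by abel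
        _ = (t + t) + (comb v (x c) + comb v (x d)) := by rw [h1]
        _ = _ := by abel
    · intro h
      refine hL.frei a ha b hb c hc d hd ?_
      have h1 : comb v (x a + x b - (x c + x d)) = 0 := by
        rw [map_sub, map_add, map_add]
        have h2 : (t + t) + (comb v (x a) + comb v (x b)) = (t + t) + (comb v (x c) + comb v (x d)) := by
          calc (t + t) + (comb v (x a) + comb v (x b)) = t + comb v (x a) + (t + comb v (x b)) := by abel
            _ = a + b := by rw [← hrep a ha, ← hrep b hb]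
            _ = c + d := h
            _ = t + comb v (x c) + (t + comb v (x d)) := by rw [← hrep c hc, ← hrep d hd]
            _ = _ := by abel
        rw [add_left_cancel h2, sub_self]
      rw [h1]
      exact H.zero_mem

theorem box_imp {ε : ℝ} (hε0 : 0 < ε) (hε1 : ε ≤ 1) (h : BoxPFR ε) : PFRZ := by
  classical
  obtain ⟨C, h⟩ := h
  obtain ⟨n, hn1, hn, hCK⟩ := nat_const C
  obtain ⟨a, ha⟩ : ∃ a : ℕ, a = ⌈200000 / ε⌉₊ := ⟨_, rfl⟩
  have ha1 : 200000 / ε ≤ a := by rw [ha]; exact Nat.le_ceil _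
  obtain ⟨m, hm⟩ : ∃ m : ℕ, m = 2 * (n * (a + 1)) + (a + (a + 1) * n) + 1 := ⟨_, rfl⟩
  obtain ⟨q, hq⟩ : ∃ q : ℕ, q = 5000 * 2 ^ (5000 * m) + 1000 * (m + 1) := ⟨_, rfl⟩
  refine ⟨(q : ℝ), ?_⟩
  intro K A hK2 hA hK
  have hK1 : 1 ≤ K := by linarith
  have hK0 : 0 < K := by linarith
  have h2K : 1 ≤ 2 * K := by linarith
  have hlog0 : 0 ≤ Real.log (2 * K) := Real.log_nonneg h2K
  have htf : ∀ (n : ℕ) (x : ℤ), n ≠ 0 → n • x = 0 → x = 0 := by
    intro n x hn h
    rw [nsmul_eq_mul] at h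
    rcases mul_eq_zero.1 h with h | h
    · exact absurd (by exact_mod_cast h) hn
    · exact h
  obtain ⟨A', hsub, hne, hAA', k, N, v, t, x, hk, hvol, hrep, hfr⟩ := lift_tf htf hA hK hε0 hε1
  have hAA2 : (A.card : ℝ) ≤ (2 * K) ^ a * A'.card := by
    refine hAA'.trans (mul_le_mul_of_nonneg_right ?_ (Nat.cast_nonneg _))
    rw [← Real.rpow_natCast]
    exact Real.rpow_le_rpow_of_exponent_le h2K ha1
  set A2 : Finset (Fin k → ℤ) := A'.image x with hA2
  have hinj : Set.InjOn x (A' : Set ℤ) := by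
    intro b hb c hc h
    have h1 := (hfr b hb b hb c hc b hb).1 (by rw [h])
    exact add_right_cancel h1
  have hcard2 : A2.card = A'.card := Finset.card_image_of_injOn hinj
  set K' : ℝ := K * (2 * K) ^ a with hK'
  have hpow1 : 1 ≤ (2 * K) ^ a := one_le_pow₀ h2K
  have hKK' : K ≤ K' := le_mul_of_one_le_right hK0.le hpow1
  have hK'1 : 1 ≤ K' := hK1.trans hKK'
  have h2K' : 2 * K' = (2 * K) ^ (a + 1) := by rw [hK', pow_succ]; ring
  have hdoub : ((A2 + A2).card : ℝ) ≤ K' * A2.card := by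
    have h1 : (A2 + A2).card ≤ (A' + A').card := sum_card A' x hfr
    have h2 : (A' + A').card ≤ (A + A).card := Finset.card_le_card (Finset.add_subset_add hsub hsub)
    calc ((A2 + A2).card : ℝ) ≤ (A + A).card := by exact_mod_cast h1.trans h2
      _ ≤ K * A.card := hK
      _ ≤ K * ((2 * K) ^ a * A'.card) := mul_le_mul_of_nonneg_left hAA2 hK0.le
      _ = K' * A2.card := by rw [hcard2, hK']; ring
  have hlogle : Real.log (2 * K) ≤ Real.log (2 * K') := Real.log_le_log (by linarith) (by linarith)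
  obtain ⟨d, D, ψ, T, hd, hDb, hvol', hT, hcov⟩ := h K' k N A2 (hK2.trans hKK') (hne.image x) hdoub
    (hk.trans (mul_le_mul_of_nonneg_left hlogle (by positivity))) (by
      intro b hb i
      obtain ⟨c, hc, rfl⟩ := Finset.mem_image.1 hb
      exact (hrep c hc).2 i) (by
      rw [hcard2]
      refine hvol.trans (mul_le_mul_of_nonneg_right (Real.exp_le_exp.2 ?_) (Nat.cast_nonneg _))
      refine mul_le_mul_of_nonneg_left ?_ (by positivity)
      exact Real.rpow_le_rpow hlog0 hlogle (by linarith))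
  have hD : Sym D := ⟨hDb.1, hDb.2.1, hDb.2.2.2, hDb.2.2.1.mono interior_subset⟩
  obtain ⟨s, hs, hs2⟩ := pigeon T A' A' hne (fun s b => ∃ u ∈ lat D, x b = s + ψ u)
    subset_rfl (fun b hb => hcov (x b) (Finset.mem_image_of_mem x hb))
  set A₃ := A'.filter (fun b => ∃ u ∈ lat D, x b = s + ψ u) with hA₃
  have hlogK' : Real.log (2 * K') = (a + 1 : ℕ) * Real.log (2 * K) := by
    rw [h2K', Real.log_pow]
  have hdk : (d : ℝ) ≤ ((n * (a + 1) : ℕ) : ℝ) * Real.log (2 * K) := by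
    have h1 : Real.log K' ≤ Real.log (2 * K') := Real.log_le_log (by linarith) (by linarith)
    have h0 : 0 ≤ Real.log K' := Real.log_nonneg hK'1
    calc (d : ℝ) ≤ C * Real.log K' := hd
      _ ≤ n * Real.log K' := mul_le_mul_of_nonneg_right hn h0
      _ ≤ n * Real.log (2 * K') := mul_le_mul_of_nonneg_left h1 (Nat.cast_nonneg _)
      _ = _ := by rw [hlogK']; push_cast; ring
  have hm1 : (2 * K) ^ (2 * (n * (a + 1))) ≤ (2 * K) ^ m :=
    pow_le_pow_right₀ h2K (by omega)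
  have h4d : (4 : ℝ) ^ d ≤ (2 * K) ^ m := by
    have hl : Real.log 4 ≤ 2 := by
      rw [show (4 : ℝ) = 2 ^ 2 by norm_num, Real.log_pow]
      have := Real.log_two_lt_d9
      push_cast
      linarith
    have h1 : Real.log ((4 : ℝ) ^ d) ≤ Real.log ((2 * K) ^ (2 * (n * (a + 1)))) := by
      rw [Real.log_pow, Real.log_pow]
      calc (d : ℝ) * Real.log 4 ≤ d * 2 := mul_le_mul_of_nonneg_left hl (Nat.cast_nonneg _)
        _ ≤ (((n * (a + 1) : ℕ) : ℝ) * Real.log (2 * K)) * 2 :=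
            mul_le_mul_of_nonneg_right hdk (by norm_num)
        _ = _ := by push_cast; ring
    exact ((Real.log_le_log_iff (by positivity) (by positivity)).1 h1).trans hm1
  have hR1 : 1 ≤ (2 * K) ^ m := one_le_pow₀ h2K
  have hsubA : A₃ ⊆ A := (Finset.filter_subset _ _).trans hsub
  obtain ⟨X, hX⟩ := data_of (R := (2 * K) ^ m) (A := A) (A₃ := A₃) hD ((comb v).comp ψ)
    (⊥ : AddSubgroup ℤ) (t + comb v s) inferInstance hR1 h4d (by
      have h1 : Nat.card (⊥ : AddSubgroup ℤ) = 1 := by simp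
      rw [h1, Nat.cast_one, mul_one]
      have h2 : (lat D).ncard ≤ A.card := hvol'.trans (by rw [hcard2]; exact Finset.card_le_card hsub)
      calc ((lat D).ncard : ℝ) ≤ 1 * A.card := by rw [one_mul]; exact_mod_cast h2
        _ ≤ _ := mul_le_mul_of_nonneg_right hR1 (Nat.cast_nonneg _)) hsubA (by
      have h1 : (A'.card : ℝ) ≤ T.card * A₃.card := by exact_mod_cast hs2
      have h2 : (T.card : ℝ) ≤ (2 * K) ^ ((a + 1) * n) := by
        refine (hT.trans (hCK K' hK'1)).trans ?_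
        have h3 : (n : ℝ) ≤ 2 ^ n := by exact_mod_cast Nat.lt_two_pow_self.le
        calc (n : ℝ) * K' ^ n ≤ 2 ^ n * K' ^ n := mul_le_mul_of_nonneg_right h3 (by positivity)
          _ = (2 * K') ^ n := (mul_pow _ _ _).symm
          _ = (2 * K) ^ ((a + 1) * n) := by rw [h2K', ← pow_mul]
      calc (A.card : ℝ) ≤ (2 * K) ^ a * A'.card := hAA2
        _ ≤ (2 * K) ^ a * ((2 * K) ^ ((a + 1) * n) * A₃.card) := by
          refine mul_le_mul_of_nonneg_left (h1.trans ?_) (by positivity)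
          exact mul_le_mul_of_nonneg_right h2 (Nat.cast_nonneg _)
        _ = (2 * K) ^ (a + (a + 1) * n) * A₃.card := by rw [pow_add]; ring
        _ ≤ (2 * K) ^ m * A₃.card :=
          mul_le_mul_of_nonneg_right (pow_le_pow_right₀ h2K (by omega)) (Nat.cast_nonneg _)) (by
      intro b hb
      obtain ⟨hb1, u, hu, e⟩ := Finset.mem_filter.1 hb
      refine ⟨u, hu, 0, AddSubgroup.zero_mem _, ?_⟩
      have e1 := (hrep b hb1).1
      have e2 : b = t + comb v (x b) := e1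
      rw [e, map_add] at e2
      rw [add_zero]
      show b = t + comb v s + comb v (ψ u)
      rw [add_assoc]
      exact e2)
  have hKm : K ≤ (2 * K) ^ m := by
    calc K ≤ 2 * K := by linarith
      _ = (2 * K) ^ 1 := (pow_one _).symm
      _ ≤ _ := pow_le_pow_right₀ h2K (by omega)
  obtain ⟨r, B, θ, H', T', h1, h2, h3, h4, h5, h6⟩ := main hA
    (hK.trans (mul_le_mul_of_nonneg_right hKm (Nat.cast_nonneg _))) hX
  have hbot := bot_of_tf htf H' h3
  have hcard : Nat.card H' = 1 := by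
    rw [Nat.card_eq_one_iff_unique]
    refine ⟨⟨fun a b => Subtype.ext ?_⟩, ⟨0⟩⟩
    rw [hbot a.1 a.2, hbot b.1 b.2]
  have hlog2 : Real.log (2 * K) ≤ 2 * Real.log K := by
    rw [Real.log_mul (by norm_num) hK0.ne']
    have : Real.log 2 ≤ Real.log K := Real.log_le_log (by norm_num) hK2
    linarith
  have hlogK0 : 0 ≤ Real.log K := Real.log_nonneg hK1
  refine ⟨r, B, θ, T', ?_, h2, ?_, ?_, ?_⟩
  · have e1 : Real.log (2 * (2 * K) ^ m) ≤ ((m + 1 : ℕ) : ℝ) * Real.log (2 * K) := by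
      rw [← Real.log_pow]
      refine Real.log_le_log (by positivity) ?_
      rw [pow_succ, mul_comm]
      exact mul_le_mul_of_nonneg_left (by linarith) (by positivity)
    calc (r : ℝ) ≤ 500 * Real.log (2 * (2 * K) ^ m) := h1
      _ ≤ 500 * (((m + 1 : ℕ) : ℝ) * Real.log (2 * K)) := mul_le_mul_of_nonneg_left e1 (by norm_num)
      _ ≤ 500 * (((m + 1 : ℕ) : ℝ) * (2 * Real.log K)) :=
        mul_le_mul_of_nonneg_left (mul_le_mul_of_nonneg_left hlog2 (Nat.cast_nonneg _)) (by norm_num)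
      _ = ((1000 * (m + 1) : ℕ) : ℝ) * Real.log K := by push_cast; ring
      _ ≤ (q : ℝ) * Real.log K := by
        refine mul_le_mul_of_nonneg_right ?_ hlogK0
        exact_mod_cast (by omega : 1000 * (m + 1) ≤ q)
  · rw [hcard, mul_one] at h4
    exact h4
  · have e1 : ((2 * K) ^ m) ^ 5000 = 2 ^ (5000 * m) * K ^ (5000 * m) := by
      rw [← pow_mul, mul_comm m 5000, mul_pow]
    have e2 : 5000 * m ≤ q := by
      have h7 : 5000 * m < 2 ^ (5000 * m) := Nat.lt_two_pow_self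
      have h8 : 2 ^ (5000 * m) ≤ 5000 * 2 ^ (5000 * m) := Nat.le_mul_of_pos_left _ (by norm_num)
      omega
    have e3 : 5000 * (2 : ℝ) ^ (5000 * m) ≤ q := by
      have h7 : 5000 * 2 ^ (5000 * m) ≤ q := by rw [hq]; exact Nat.le_add_right _ _
      exact_mod_cast h7
    calc (T'.card : ℝ) ≤ 5000 * ((2 * K) ^ m) ^ 5000 := h5
      _ = (5000 * (2 : ℝ) ^ (5000 * m)) * K ^ (5000 * m) := by rw [e1, mul_assoc]
      _ ≤ (q : ℝ) * K ^ ((q : ℕ) : ℝ) := by
        refine mul_le_mul e3 (pow_le_rpow hK1 (by exact_mod_cast e2)) (by positivity)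
          (Nat.cast_nonneg _)
  · intro b hb
    obtain ⟨t', ht', y, hy, g, hg, e⟩ := h6 b hb
    refine ⟨t', ht', y, hy, ?_⟩
    rw [e, hbot g hg, add_zero]

end Pool.Agent.Q285.FinMod
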